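import Mathlib

open Matrix Finset

namespace Pool.Agent.MP_4f0ed6_gt.CdV

/-- related points can be placed at distance one in the square lattice -/
def Lat {U : Type} (R : U → U → Prop) : Prop :=
  ∃ pos : U → ℤ × ℤ, Function.Injective pos ∧ ∀ u v, R u v →
    |(pos u).1 - (pos v).1| + |(pos u).2 - (pos v).2| = 1

/-- the off-diagonal pattern of a matrix -/
def Pat {U : Type} (C : Matrix U U ℝ) (u v : U) : Prop := u ≠ v ∧ C u v ≠ 0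

/-- the squares of the rows of `G` and the diagonal span the symmetric matrices (dual form) -/
def Ctrl {U D : Type} [Fintype D] (G : Matrix U D ℝ) : Prop :=
  ∀ Y : Matrix D D ℝ, Y.IsSymm → (∀ x, Y x x = 0) →
    (∀ u, ∑ x, ∑ y, G u x * Y x y * G u y = 0) → Y = 0

/-- a control system -/
structure Good {U D : Type} [Fintype U] [Fintype D] (C : Matrix U U ℝ) (B : Matrix D U ℝ)
    (G : Matrix U D ℝ) (η : ℝ) (l : ℕ) : Prop where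
  symm : C.IsSymm
  off : ∀ u v, u ≠ v → C u v ≤ 0
  lat : Lat (Pat C)
  pos : ∃ c : ℝ, 1 < c ∧ ∀ z : U → ℝ, c * ∑ u, z u ^ 2 ≤ z ⬝ᵥ C *ᵥ z
  sol : C * G = Bᵀ
  diag : ∀ x y, x ≠ y → (B * G) x y = 0
  ctrl : Ctrl G
  small : ∑ x, ∑ u, B x u ^ 2 ≤ η
  legs : ∃ S : Finset (D × U), S.card ≤ l ∧ ∀ x u, B x u ≠ 0 → (x, u) ∈ S

/-- there is a control system on `D` -/
def Sys (D : Type) [Fintype D] (η : ℝ) (l : ℕ) : Prop :=
  ∃ (U : Type) (_ : Fintype U) (_ : DecidableEq U) (C : Matrix U U ℝ) (B : Matrix D U ℝ)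
    (G : Matrix U D ℝ), Good C B G η l

/-- the matrix on two sheets with even part `P` and odd part `N` -/
noncomputable def lift {I : Type} (P N : Matrix I I ℝ) : Matrix (I × Bool) (I × Bool) ℝ :=
  Matrix.of fun v w => (P v.1 w.1 + (if v.2 = w.2 then 1 else -1) * N v.1 w.1) / 2

/-- the odd block matrix -/
noncomputable def Nm {U D : Type} [Fintype U] [DecidableEq D] (A : Matrix D D ℝ)
    (C : Matrix U U ℝ) (B : Matrix D U ℝ) (G : Matrix U D ℝ) : Matrix (D ⊕ U) (D ⊕ U) ℝ :=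
  fromBlocks (A + diagonal fun x => (B * G) x x) B Bᵀ C

/-- the even block matrix -/
noncomputable def Np {U D : Type} [Fintype U] [DecidableEq D] (A : Matrix D D ℝ)
    (C : Matrix U U ℝ) (B : Matrix D U ℝ) (G : Matrix U D ℝ) : Matrix (D ⊕ U) (D ⊕ U) ℝ :=
  fromBlocks (A + diagonal fun x => (B * G) x x) (Matrix.of fun x u => -|B x u|)
    (Matrix.of fun u x => -|B x u|) C

/-- the involution on the points -/
def flp {D : Type} (v : D × Bool) : D × Bool := (v.1, !v.2)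

/-- graph Laplacian of a family of permutations -/
noncomputable def Lap {T X : Type} [Fintype T] (Pm : T → Equiv.Perm X) (u : X → ℝ) (v : X) : ℝ :=
  ∑ t, (2 * u v - u (Pm t v) - u ((Pm t).symm v))

/-- the base graph -/
structure GraphOk {D T : Type} [Fintype D] [Fintype T] (Pm : T → Equiv.Perm (D × Bool))
    (θ : ℝ) : Prop where
  θ_nonneg : 0 ≤ θ
  ne : ∀ t v, Pm t v ≠ v
  comm : ∀ t v, Pm t (flp v) = flp (Pm t v)
  odd : ∀ u : D × Bool → ℝ, (∀ v, u (flp v) = -u v) → θ * ∑ v, u v ^ 2 ≤ ∑ v, u v * Lap Pm u v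
  even : ∀ u : D × Bool → ℝ, (∀ v, u (flp v) = u v) →
    (θ + 1) * (∑ v, u v ^ 2 - (∑ v, u v) ^ 2 / Fintype.card (D × Bool)) ≤ ∑ v, u v * Lap Pm u v

/-- the classes -/
abbrev DD (h : ℕ) : Type := Fin h → Bool

/-- the even and the odd part of the base matrix -/
structure BaseOk {D : Type} [Fintype D] [DecidableEq D] (Ap Am : Matrix D D ℝ) (k E : ℕ) :
    Prop where
  symp : Ap.IsSymm
  symm : Am.IsSymm
  psd : ∀ q : D → ℝ, 0 ≤ q ⬝ᵥ Am *ᵥ q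
  gap : ∀ p : D → ℝ, ∑ x, p x = 0 → 1 / 2 * ∑ x, p x ^ 2 ≤ p ⬝ᵥ Ap *ᵥ p
  neg : (fun _ => (1 : ℝ)) ⬝ᵥ Ap *ᵥ (fun _ => (1 : ℝ)) ≤ -(Fintype.card D : ℝ) / 2
  ker : k ≤ Module.finrank ℝ (LinearMap.ker (Matrix.toLin' Am))
  off : ∀ v w, v ≠ w → lift Ap Am v w ≤ 0
  edges : ∃ S : Finset (Sym2 (D × Bool)), S.card ≤ E ∧
    ∀ v w, v ≠ w → lift Ap Am v w ≠ 0 → w = flp v ∨ s(v, w) ∈ S

/-- the conclusion -/
def Concl (γ k : ℕ) : Prop :=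
  ∃ (V : Type) (_ : Fintype V) (_ : DecidableEq V) (G : SimpleGraph V) (pos : V → ℤ × ℤ)
    (S : Finset (Sym2 V)) (M : Matrix V V ℝ) (hM : M.IsHermitian),
    Function.Injective pos ∧ S.card ≤ γ ∧
    (∀ u v, G.Adj u v → s(u, v) ∉ S → |(pos u).1 - (pos v).1| + |(pos u).2 - (pos v).2| = 1) ∧
    (∀ u v, G.Adj u v → M u v < 0) ∧ (∀ u v, u ≠ v → ¬G.Adj u v → M u v = 0) ∧
    (Finset.univ.filter fun i => hM.eigenvalues i < 0).card = 1 ∧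
    (∀ X : Matrix V V ℝ, X.IsSymm → (∀ u v, u = v ∨ G.Adj u v → X u v = 0) → M * X = 0 → X = 0) ∧
    k ≤ Module.finrank ℝ (LinearMap.ker (Matrix.toLin' M))

def PER_st : Prop :=
  ∀ (U D : Type) [Fintype U] [DecidableEq U] [Fintype D] [DecidableEq D] (C : Matrix U U ℝ)
    (B : Matrix D U ℝ) (G : Matrix U D ℝ), C.IsSymm → (∀ z : U → ℝ, C *ᵥ z = 0 → z = 0) →
    C * G = Bᵀ → (∀ x y, x ≠ y → (B * G) x y = 0) → Ctrl G →
    ∀ T : Matrix D D ℝ, T.IsSymm → ∀ δ : ℝ, 0 < δ → ∀ᶠ τ in nhds (0 : ℝ),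
      ∃ (s : U → ℝ) (G' : Matrix U D ℝ), (∀ u, |s u| ≤ δ) ∧ (C + diagonal s) * G' = Bᵀ ∧
        (∀ x y, x ≠ y → (B * G') x y = -τ * T x y) ∧ Ctrl G'

def GAD_st : Prop :=
  ∀ n : ℕ, ∃ (Q : Type) (_ : Fintype Q) (_ : DecidableEq Q) (C : Matrix Q Q ℝ)
    (πA πB : Fin (n + 1) → Q) (GA GB : Matrix Q (Fin (n + 1)) ℝ), C.IsSymm ∧
    (∀ u v, u ≠ v → C u v ≤ 0) ∧ Lat (Pat C) ∧
    (∀ z : Q → ℝ, 3 / 2 * ∑ u, z u ^ 2 ≤ z ⬝ᵥ C *ᵥ z) ∧
    (∀ q a, (C * GA) q a = if q = πA a then 1 else 0) ∧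
    (∀ q b, (C * GB) q b = if q = πB b then 1 else 0) ∧
    ∀ Y : Matrix (Fin (n + 1)) (Fin (n + 1)) ℝ,
      (∀ q, ∑ a, ∑ b, GA q a * Y a b * GB q b = 0) → Y = 0

def SUM_st : Prop :=
  ∀ (n l : ℕ) (η : ℝ), 0 < η → Sys (Fin (n + 1)) (η / 4) l →
    Sys (Fin (n + 1) ⊕ Fin (n + 1)) η (2 * l + 4 * (n + 1))

def POW_st : Prop :=
  ∀ (h : ℕ) (η : ℝ), 0 < η → ∀ (D : Type) [Fintype D], Fintype.card D = 2 ^ h →
    Sys D η (2 * h * 2 ^ h)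

def LIF_st : Prop :=
  ∀ (I : Type) [Fintype I] [DecidableEq I] (P N : Matrix I I ℝ) (w n : I → ℝ), P.IsSymm →
    N.IsSymm → (∀ q : I → ℝ, 0 ≤ q ⬝ᵥ N *ᵥ q) →
    (∀ p : I → ℝ, w ⬝ᵥ p = 0 → p ≠ 0 → 0 < p ⬝ᵥ P *ᵥ p) → n ⬝ᵥ P *ᵥ n < 0 →
    (∀ Y : Matrix I I ℝ, Y.IsSymm → (∀ i, Y i i = 0) → N * Y = 0 → Y = 0) →
    ∃ hM : (lift P N).IsHermitian,
      (Finset.univ.filter fun i => hM.eigenvalues i < 0).card = 1 ∧
      (∀ X : Matrix (I × Bool) (I × Bool) ℝ, X.IsSymm → (∀ v, X v v = 0) →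
        lift P N * X = 0 → X = 0) ∧
      Module.finrank ℝ (LinearMap.ker (Matrix.toLin' N)) ≤
        Module.finrank ℝ (LinearMap.ker (Matrix.toLin' (lift P N)))

def ODD_st : Prop :=
  ∀ (U D : Type) [Fintype U] [DecidableEq U] [Fintype D] [DecidableEq D] (A : Matrix D D ℝ)
    (C : Matrix U U ℝ) (B : Matrix D U ℝ) (G : Matrix U D ℝ) (η : ℝ) (l : ℕ), Good C B G η l →
    A.IsSymm → (∀ q : D → ℝ, 0 ≤ q ⬝ᵥ A *ᵥ q) →
    (Nm A C B G).IsSymm ∧ (∀ q : D ⊕ U → ℝ, 0 ≤ q ⬝ᵥ Nm A C B G *ᵥ q) ∧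
      (∀ Y : Matrix (D ⊕ U) (D ⊕ U) ℝ, Y.IsSymm → (∀ i, Y i i = 0) → Nm A C B G * Y = 0 → Y = 0) ∧
      Module.finrank ℝ (LinearMap.ker (Matrix.toLin' A)) ≤
        Module.finrank ℝ (LinearMap.ker (Matrix.toLin' (Nm A C B G)))

def EVN_st : Prop :=
  ∀ (U D : Type) [Fintype U] [DecidableEq U] [Fintype D] [DecidableEq D] [Nonempty D]
    (A : Matrix D D ℝ) (C : Matrix U U ℝ) (B : Matrix D U ℝ) (G : Matrix U D ℝ) (l : ℕ),
    Good C B G (1 / 4) l → A.IsSymm →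
    (∀ p : D → ℝ, ∑ x, p x = 0 → 1 / 2 * ∑ x, p x ^ 2 ≤ p ⬝ᵥ A *ᵥ p) →
    (fun _ => (1 : ℝ)) ⬝ᵥ A *ᵥ (fun _ => (1 : ℝ)) ≤ -(Fintype.card D : ℝ) / 2 →
    (Np A C B G).IsSymm ∧
      (∀ p : D ⊕ U → ℝ, Sum.elim (fun _ => (1 : ℝ)) (fun _ => 0) ⬝ᵥ p = 0 → p ≠ 0 →
        0 < p ⬝ᵥ Np A C B G *ᵥ p) ∧
      Sum.elim (fun _ => (1 : ℝ)) (fun _ => 0) ⬝ᵥ
        Np A C B G *ᵥ Sum.elim (fun _ => (1 : ℝ)) (fun _ => 0) < 0

def BAS_st : Prop :=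
  ∀ (D T : Type) [Fintype D] [DecidableEq D] [Fintype T] (Pm : T → Equiv.Perm (D × Bool)) (θ : ℝ)
    (k : ℕ) (F : Fin k → D × Bool → ℝ), GraphOk Pm θ → LinearIndependent ℝ F →
    (∀ i v, F i (flp v) = -F i v) → (∀ i v, Lap Pm (F i) v = θ * F i v) →
    ∃ Ap Am : Matrix D D ℝ, BaseOk Ap Am k (Fintype.card T * (2 * Fintype.card D))

def FIN_st : Prop :=
  ∀ (D : Type) [Fintype D] [DecidableEq D] [Nonempty D] (Ap Am : Matrix D D ℝ) (k E l : ℕ),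
    BaseOk Ap Am k E → Sys D (1 / 4) l → Concl (E + 2 * l) k

theorem Lat.comap {U V : Type} {R : U → U → Prop} {S : V → V → Prop} (h : Lat S) (f : U → V)
    (hf : Function.Injective f) (hR : ∀ u v, R u v → S (f u) (f v)) : Lat R := by
  obtain ⟨pos, h1, h2⟩ := h
  exact ⟨pos ∘ f, h1.comp hf, fun u v huv => h2 _ _ (hR u v huv)⟩

theorem Lat.sum {U V : Type} [Fintype U] [Fintype V] {R : U → U → Prop} {S : V → V → Prop}
    (hR : Lat R) (hS : Lat S) : Lat (Sum.LiftRel R S) := by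
  obtain ⟨p, p1, p2⟩ := hR
  obtain ⟨q, q1, q2⟩ := hS
  obtain ⟨a, ha⟩ := (Set.finite_range fun u => (p u).1).bddAbove
  obtain ⟨b, hb⟩ := (Set.finite_range fun v => (q v).1).bddBelow
  have ha' : ∀ u, (p u).1 ≤ a := fun u => ha ⟨u, rfl⟩
  have hb' : ∀ v, b ≤ (q v).1 := fun v => hb ⟨v, rfl⟩
  refine ⟨Sum.elim p fun v => ((q v).1 + (a - b + 1), (q v).2), ?_, ?_⟩
  · rintro (u | u) (v | v) h
    · rw [p1 h]
    · have h1 : (p u).1 = (q v).1 + (a - b + 1) := congrArg Prod.fst h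
      have := ha' u
      have := hb' v
      omega
    · have h1 : (q u).1 + (a - b + 1) = (p v).1 := congrArg Prod.fst h
      have := ha' v
      have := hb' u
      omega
    · have h' : ((q u).1 + (a - b + 1), (q u).2) = ((q v).1 + (a - b + 1), (q v).2) := h
      obtain ⟨h1, h2⟩ := Prod.mk.inj h'
      rw [q1 (Prod.ext (by omega) h2)]
  · rintro _ _ (h | h)
    · exact p2 _ _ h
    · have := q2 _ _ h
      simpa using this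

theorem Lat.blocks {U V : Type} [Fintype U] [Fintype V] {C : Matrix U U ℝ} {E : Matrix V V ℝ}
    (hC : Lat (Pat C)) (hE : Lat (Pat E)) : Lat (Pat (fromBlocks C 0 0 E)) := by
  refine (hC.sum hE).comap id Function.injective_id ?_
  rintro (u | u) (v | v) ⟨h1, h2⟩
  · exact Sum.LiftRel.inl ⟨fun h => h1 (by rw [h]), h2⟩
  · exact absurd rfl h2
  · exact absurd rfl h2
  · exact Sum.LiftRel.inr ⟨fun h => h1 (by rw [h]), h2⟩

end Pool.Agent.MP_4f0ed6_gt.CdV
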