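import Pool.Agent.MP_4f0ed6_gt.CdV.Base

section

open Matrix Finset Filter Topology

namespace Pool.Agent.MP_4f0ed6_gt.CdV

theorem gram_iff {m n : Type} [Fintype m] [DecidableEq m] [Fintype n] (L : Matrix m n ℝ) :
    (∀ y : m → ℝ, y ᵥ* L = 0 → y = 0) ↔ (L * Lᵀ).det ≠ 0 := by
  constructor
  · intro h hd
    obtain ⟨v, hv, h0⟩ := Matrix.exists_mulVec_eq_zero_iff.2 hd
    refine hv (h v ?_)
    have h1 : (v ᵥ* L) ⬝ᵥ (v ᵥ* L) = 0 := by
      have : v ⬝ᵥ (L * Lᵀ) *ᵥ v = 0 := by rw [h0, dotProduct_zero]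
      rwa [← Matrix.mulVec_mulVec, Matrix.dotProduct_mulVec, Matrix.mulVec_transpose] at this
    exact dotProduct_self_eq_zero.1 h1
  · intro h y hy
    by_contra hne
    refine h (Matrix.exists_vecMul_eq_zero_iff.1 ⟨y, hne, ?_⟩)
    rw [← Matrix.vecMul_vecMul, hy, Matrix.zero_vecMul]

theorem gram_surj {m n : Type} [Fintype m] [DecidableEq m] [Fintype n] (L : Matrix m n ℝ)
    (h : (L * Lᵀ).det ≠ 0) (W : m → ℝ) : ∃ e, L *ᵥ e = W := by
  refine ⟨Lᵀ *ᵥ ((L * Lᵀ)⁻¹ *ᵥ W), ?_⟩
  rw [Matrix.mulVec_mulVec, Matrix.mulVec_mulVec, Matrix.mul_nonsing_inv _ (Ne.isUnit h),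
    Matrix.one_mulVec]

/-- the control matrix -/
noncomputable def Lam {U D : Type} [DecidableEq D] (G : U → D → ℝ) :
    Matrix (D × D) (U ⊕ D ⊕ D × D) ℝ :=
  Matrix.of fun p => Sum.elim (fun u => G u p.1 * G u p.2)
    (Sum.elim (fun z => if p = (z, z) then 1 else 0)
      fun q => (if p = q then 1 else 0) - if p = q.swap then 1 else 0)

theorem ctrl_iff {U D : Type} [Fintype U] [Fintype D] [DecidableEq D] (G : Matrix U D ℝ) :
    Ctrl G ↔ (Lam G * (Lam G)ᵀ).det ≠ 0 := by
  rw [← gram_iff]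
  have e1 : ∀ (y : D × D → ℝ) u, (y ᵥ* Lam G) (Sum.inl u) =
      ∑ x, ∑ x', G u x * y (x, x') * G u x' := by
    intro y u
    simp only [Matrix.vecMul, dotProduct, Lam, Matrix.of_apply, Sum.elim_inl,
      Fintype.sum_prod_type]
    exact Finset.sum_congr rfl fun x _ => Finset.sum_congr rfl fun x' _ => by ring
  have e2 : ∀ (y : D × D → ℝ) z, (y ᵥ* Lam G) (Sum.inr (Sum.inl z)) = y (z, z) := by
    intro y z
    simp [Matrix.vecMul, dotProduct, Lam]
  have e3 : ∀ (y : D × D → ℝ) q, (y ᵥ* Lam G) (Sum.inr (Sum.inr q)) = y q - y q.swap := by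
    intro y q
    simp [Matrix.vecMul, dotProduct, Lam, mul_sub, Finset.sum_sub_distrib]
  constructor
  · intro h y hy
    have := h (Matrix.of fun x x' => y (x, x')) ?_ ?_ ?_
    · funext p
      exact congrFun (congrFun this p.1) p.2
    · refine Matrix.IsSymm.ext fun x x' => ?_
      have := e3 y (x', x)
      rw [hy] at this
      simp only [Pi.zero_apply, Prod.swap_prod_mk] at this
      simp only [Matrix.of_apply]
      linarith
    · intro x
      have := e2 y x
      rw [hy] at this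
      exact this.symm
    · intro u
      have := e1 y u
      rw [hy] at this
      exact this.symm
  · intro h Y hs hd hu
    have := h (fun p => Y p.1 p.2) ?_
    · ext x x'
      exact congrFun this (x, x')
    · funext i
      rcases i with u | z | q
      · rw [e1]
        exact hu u
      · rw [e2]
        exact hd z
      · rw [e3]
        simp only [Prod.fst_swap, Prod.snd_swap, Pi.zero_apply]
        rw [hs.apply, sub_self]

theorem ctrl_surj {U D : Type} [Fintype U] [Fintype D] [DecidableEq D] {G : Matrix U D ℝ}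
    (h : Ctrl G) (W : D → D → ℝ) : ∃ (s : U → ℝ) (d : D → ℝ) (K : D → D → ℝ), ∀ x y,
      W x y = ∑ u, G u x * G u y * s u + (if x = y then d x else 0) + K x y - K y x := by
  obtain ⟨e, he⟩ := gram_surj _ ((ctrl_iff G).1 h) fun p => W p.1 p.2
  refine ⟨fun u => e (Sum.inl u), fun z => e (Sum.inr (Sum.inl z)),
    fun x y => e (Sum.inr (Sum.inr (x, y))), fun x y => ?_⟩
  have := congrFun he (x, y)
  simp only [Matrix.mulVec, dotProduct, Lam, Matrix.of_apply, Fintype.sum_sum_type, Sum.elim_inl,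
    Sum.elim_inr, sub_mul, Finset.sum_sub_distrib] at this
  rw [← this]
  have a1 : ∑ z, (if (x, y) = (z, z) then (1 : ℝ) else 0) * e (Sum.inr (Sum.inl z)) =
      if x = y then e (Sum.inr (Sum.inl x)) else 0 := by
    split_ifs with hxy
    · subst hxy
      simp
    · refine Finset.sum_eq_zero fun z _ => ?_
      rw [if_neg, zero_mul]
      intro h
      obtain ⟨h1, h2⟩ := Prod.mk.inj h
      exact hxy (h1.trans h2.symm)
  have a2 : ∑ q : D × D, (if (x, y) = q then (1 : ℝ) else 0) * e (Sum.inr (Sum.inr q)) =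
      e (Sum.inr (Sum.inr (x, y))) := by simp
  have a3 : ∑ q : D × D, (if (x, y) = q.swap then (1 : ℝ) else 0) * e (Sum.inr (Sum.inr q)) =
      e (Sum.inr (Sum.inr (y, x))) := by
    rw [Finset.sum_eq_single (y, x)]
    · simp
    · intro q _ hq
      rw [if_neg, zero_mul]
      intro h
      exact hq (by rw [← Prod.swap_swap q, ← h]; rfl)
    · simp
  rw [a1, a2, a3]
  ring

theorem ctrl_open {U D : Type} [Fintype U] [Fintype D] [DecidableEq D] :
    IsOpen {G : U → D → ℝ | Ctrl (Matrix.of G)} := by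
  have hc : Continuous fun G : U → D → ℝ => Lam G := by
    refine continuous_matrix fun p i => ?_
    rcases i with u | z | q
    · simp only [Lam, Matrix.of_apply, Sum.elim_inl]
      fun_prop
    · exact continuous_const
    · exact continuous_const
  have : {G : U → D → ℝ | Ctrl (Matrix.of G)} =
      {G : U → D → ℝ | (Lam G * (Lam G)ᵀ).det ≠ 0} := by
    ext G
    exact ctrl_iff (Matrix.of G)
  rw [this]
  exact isOpen_ne_fun (hc.matrix_mul hc.matrix_transpose).matrix_det continuous_const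

/-- the linear part -/
noncomputable def Lin {U D : Type} [Fintype U] [DecidableEq D] (C : Matrix U U ℝ)
    (B : Matrix D U ℝ) (G : Matrix U D ℝ) :
    ((U → ℝ) × (U → D → ℝ) × (D → ℝ) × (D → D → ℝ)) →ₗ[ℝ] (U → D → ℝ) × (D → D → ℝ) where
  toFun e := (fun u x => ∑ v, C u v * e.2.1 v x + e.1 u * G u x,
    fun x y => ∑ u, B x u * e.2.1 u y + (if x = y then e.2.2.1 x else 0) + e.2.2.2 x y -
      e.2.2.2 y x)
  map_add' e e' := by
    ext u x
    · simp only [Prod.fst_add, Prod.snd_add, Pi.add_apply, mul_add, Finset.sum_add_distrib]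
      ring
    · simp only [Prod.fst_add, Prod.snd_add, Pi.add_apply, mul_add, Finset.sum_add_distrib]
      split_ifs <;> ring
  map_smul' c e := by
    ext u x
    · simp only [Prod.smul_fst, Prod.smul_snd, Pi.smul_apply, smul_eq_mul, RingHom.id_apply,
        mul_add, Finset.mul_sum]
      congr 1
      · exact Finset.sum_congr rfl fun _ _ => by ring
      · ring
    · simp only [Prod.smul_fst, Prod.smul_snd, Pi.smul_apply, smul_eq_mul, RingHom.id_apply,
        mul_add, mul_sub, Finset.mul_sum]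
      congr 3
      · exact Finset.sum_congr rfl fun _ _ => by ring
      · split_ifs <;> ring

theorem lin_surj {U D : Type} [Fintype U] [DecidableEq U] [Fintype D] [DecidableEq D]
    {C : Matrix U U ℝ} {B : Matrix D U ℝ} {G : Matrix U D ℝ} (hs : C.IsSymm)
    (hi : ∀ z : U → ℝ, C *ᵥ z = 0 → z = 0) (hG : C * G = Bᵀ) (hc : Ctrl G) :
    Function.Surjective (Lin C B G) := by
  rintro ⟨Z, T⟩
  have hd : IsUnit C.det := by
    refine Ne.isUnit fun h => ?_
    obtain ⟨v, hv, h0⟩ := Matrix.exists_mulVec_eq_zero_iff.2 h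
    exact hv (hi v h0)
  have hB : B = Gᵀ * C := by
    rw [← Matrix.transpose_transpose B, ← hG, Matrix.transpose_mul, hs.eq]
  obtain ⟨s, d, K, h⟩ := ctrl_surj hc fun x y => ∑ u, G u x * Z u y - T x y
  let H : Matrix U D ℝ := C⁻¹ * Matrix.of fun u x => Z u x - s u * G u x
  have h1 : C * H = Matrix.of fun u x => Z u x - s u * G u x := by
    rw [← Matrix.mul_assoc, Matrix.mul_nonsing_inv _ hd, Matrix.one_mul]
  have h2 : B * H = Gᵀ * Matrix.of fun u x => Z u x - s u * G u x := by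
    rw [hB, Matrix.mul_assoc, h1]
  refine ⟨(s, fun u x => H u x, -d, -K), ?_⟩
  ext x y
  · have := congrFun (congrFun h1 x) y
    simp only [Matrix.mul_apply, Matrix.of_apply] at this
    simp only [Lin, LinearMap.coe_mk, AddHom.coe_mk]
    linarith
  · have := congrFun (congrFun h2 x) y
    simp only [Matrix.mul_apply, Matrix.of_apply, Matrix.transpose_apply, mul_sub,
      Finset.sum_sub_distrib] at this
    have h3 := h x y
    have h4 : ∑ u, G u x * (s u * G u y) = ∑ u, G u x * G u y * s u :=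
      Finset.sum_congr rfl fun _ _ => by ring
    simp only [Lin, LinearMap.coe_mk, AddHom.coe_mk, Pi.neg_apply]
    split_ifs at h3 ⊢ <;> linarith

theorem PER_pf : PER_st := by
  intro U D _ _ _ _ C B G hs hi hG hd hc T hT δ hδ
  let L := LinearMap.toContinuousLinearMap (Lin C B G)
  let N : ((U → ℝ) × (U → D → ℝ) × (D → ℝ) × (D → D → ℝ)) → (U → D → ℝ) × (D → D → ℝ) :=
    fun e => (fun u x => e.1 u * e.2.1 u x, 0)
  have hN : HasStrictFDerivAt N (0 : _ →L[ℝ] _) 0 := by
    have h1 : HasStrictFDerivAt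
        (fun e : (U → ℝ) × (U → D → ℝ) × (D → ℝ) × (D → D → ℝ) => fun u x => e.1 u * e.2.1 u x)
        (0 : _ →L[ℝ] _) 0 := by
      refine hasStrictFDerivAt_pi'' fun u => hasStrictFDerivAt_pi'' fun x => ?_
      let p1 : ((U → ℝ) × (U → D → ℝ) × (D → ℝ) × (D → D → ℝ)) →L[ℝ] ℝ :=
        (ContinuousLinearMap.proj u).comp (ContinuousLinearMap.fst ℝ _ _)
      let p2 : ((U → ℝ) × (U → D → ℝ) × (D → ℝ) × (D → D → ℝ)) →L[ℝ] ℝ :=
        (ContinuousLinearMap.proj (R := ℝ) (φ := fun _ : D => ℝ) x).comp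
          ((ContinuousLinearMap.proj (R := ℝ) (φ := fun _ : U => D → ℝ) u).comp
            ((ContinuousLinearMap.fst ℝ _ _).comp (ContinuousLinearMap.snd ℝ _ _)))
      have := (p1.hasStrictFDerivAt (x := 0)).mul (p2.hasStrictFDerivAt (x := 0))
      simp only [map_zero, zero_smul, add_zero] at this
      simp only [ContinuousLinearMap.comp_zero]
      exact this
    have h2 := h1.prodMk (hasStrictFDerivAt_const (𝕜 := ℝ) (0 : D → D → ℝ) 0)
    have h3 : ((0 : _ →L[ℝ] (U → D → ℝ)).prod (0 : _ →L[ℝ] (D → D → ℝ)) :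
        ((U → ℝ) × (U → D → ℝ) × (D → ℝ) × (D → D → ℝ)) →L[ℝ] _) = 0 := by
      ext <;> rfl
    rw [h3] at h2
    exact h2
  have hF : HasStrictFDerivAt (fun e => L e + N e) L 0 := by
    have := (L.hasStrictFDerivAt (x := 0)).add hN
    rw [add_zero] at this
    exact this
  have hm := hF.map_nhds_eq_of_surj
    (LinearMap.range_eq_top.2 (lin_surj hs hi hG hc))
  have h0 : L 0 + N 0 = 0 := by
    rw [map_zero, zero_add]
    ext <;> simp [N]
  rw [h0] at hm
  have hO : {e : (U → ℝ) × (U → D → ℝ) × (D → ℝ) × (D → D → ℝ) |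
      ‖e.1‖ < δ ∧ Ctrl (Matrix.of fun u x => G u x + e.2.1 u x)} ∈ 𝓝 0 := by
    refine IsOpen.mem_nhds (IsOpen.inter (isOpen_lt continuous_fst.norm continuous_const) ?_)
      ⟨?_, ?_⟩
    · exact ctrl_open.preimage
        (f := fun e : (U → ℝ) × (U → D → ℝ) × (D → ℝ) × (D → D → ℝ) =>
          fun u x => G u x + e.2.1 u x) (by fun_prop)
    · simpa using hδ
    · have : (Matrix.of fun u x => G u x +
          (0 : (U → ℝ) × (U → D → ℝ) × (D → ℝ) × (D → D → ℝ)).2.1 u x) = G := by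
        ext u x
        simp
      rw [this]
      exact hc
  have hI := image_mem_map (m := fun e => L e + N e) hO
  rw [hm] at hI
  have ht : Tendsto (fun τ : ℝ => ((0, fun x y => -τ * T x y) : (U → D → ℝ) × (D → D → ℝ)))
      (𝓝 0) (𝓝 0) := by
    have : Continuous fun τ : ℝ => ((0, fun x y => -τ * T x y) : (U → D → ℝ) × (D → D → ℝ)) := by
      fun_prop
    have h1 := this.tendsto 0
    have h2 : ((0, fun x y => -(0 : ℝ) * T x y) : (U → D → ℝ) × (D → D → ℝ)) = 0 := by
      ext <;> simp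
    rwa [h2] at h1
  filter_upwards [ht hI] with τ hτ
  obtain ⟨⟨s, H, d, K⟩, ⟨a1, a2⟩, a3⟩ := hτ
  have b1 : ∀ u x, ∑ v, C u v * H v x + s u * G u x + s u * H u x = 0 := fun u x =>
    congrFun (congrFun (congrArg Prod.fst a3) u) x
  have b2 : ∀ x y, ∑ u, B x u * H u y + (if x = y then d x else 0) + K x y - K y x + 0 =
      -τ * T x y := fun x y => congrFun (congrFun (congrArg Prod.snd a3) x) y
  have c1 : (C + diagonal s) * (Matrix.of fun u x => G u x + H u x) = Bᵀ := by
    ext u x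
    have := congrFun (congrFun hG u) x
    rw [Matrix.mul_apply] at this
    rw [Matrix.add_mul, Matrix.add_apply, Matrix.diagonal_mul, Matrix.mul_apply]
    simp only [Matrix.of_apply, mul_add, Finset.sum_add_distrib]
    linarith [b1 u x]
  have hsym : ∀ (C' : Matrix U U ℝ) (G' : Matrix U D ℝ), C'.IsSymm → C' * G' = Bᵀ →
      ∀ x y, (B * G') x y = (B * G') y x := by
    intro C' G' h1 h2 x y
    have hB : B = G'ᵀ * C' := by
      rw [← Matrix.transpose_transpose B, ← h2, Matrix.transpose_mul, h1.eq]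
    have : (B * G')ᵀ = B * G' := by
      rw [Matrix.transpose_mul, ← h2, ← Matrix.mul_assoc, ← hB]
    rw [← this, Matrix.transpose_apply, this]
  refine ⟨s, Matrix.of fun u x => G u x + H u x, fun u => ?_, c1, fun x y hxy => ?_, a2⟩
  · exact ((norm_le_pi_norm s u).trans a1.le :)
  · have e1 := hsym _ _ (hs.add (Matrix.isSymm_diagonal s)) c1 x y
    have e2 := hd x y hxy
    have e3 := hd y x hxy.symm
    have e4 := b2 x y
    have e5 := b2 y x
    rw [if_neg hxy] at e4
    rw [if_neg hxy.symm, hT.apply] at e5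
    simp only [Matrix.mul_apply, Matrix.of_apply, mul_add, Finset.sum_add_distrib] at e1 e2 e3 ⊢
    linarith

end Pool.Agent.MP_4f0ed6_gt.CdV

end

section

open Matrix Finset Filter Topology

namespace Pool.Agent.MP_4f0ed6_gt.CdV

theorem form_le {Q : Type} [Fintype Q] (A : Matrix Q Q ℝ) (K : ℝ) (h : ∀ u v, |A u v| ≤ K)
    (z : Q → ℝ) : z ⬝ᵥ A *ᵥ z ≤ K * Fintype.card Q * ∑ u, z u ^ 2 := by
  have h1 : z ⬝ᵥ A *ᵥ z ≤ ∑ u, ∑ v, K * ((z u ^ 2 + z v ^ 2) / 2) := by
    simp only [dotProduct, Matrix.mulVec, Finset.mul_sum]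
    refine Finset.sum_le_sum fun u _ => Finset.sum_le_sum fun v _ => ?_
    have a1 := abs_le.1 (h u v)
    nlinarith [mul_nonneg (sub_nonneg.2 a1.2) (sq_nonneg (z u + z v)),
      mul_nonneg (neg_le_iff_add_nonneg.1 a1.1) (sq_nonneg (z u - z v))]
  refine h1.trans (le_of_eq ?_)
  simp only [← Finset.mul_sum, ← Finset.sum_div, Finset.sum_add_distrib, Finset.sum_const,
    Finset.card_univ, nsmul_eq_mul]
  ring

/-- vertical shift on the grid -/
def Up (n : ℕ) : Matrix (Fin n × Fin n) (Fin n × Fin n) ℝ :=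
  Matrix.of fun u v => if u.1 = v.1 ∧ (u.2 : ℕ) = v.2 + 1 then 1 else 0

/-- horizontal shift on the grid -/
def Rt (n : ℕ) : Matrix (Fin n × Fin n) (Fin n × Fin n) ℝ :=
  Matrix.of fun u v => if u.2 = v.2 ∧ (u.1 : ℕ) = v.1 + 1 then 1 else 0

/-- adjacency matrix of the grid -/
def Adj (n : ℕ) : Matrix (Fin n × Fin n) (Fin n × Fin n) ℝ :=
  Up n + (Up n)ᵀ + (Rt n + (Rt n)ᵀ)

/-- the rescaled matrix -/
def NA (n : ℕ) (ε : ℝ) : Matrix (Fin n × Fin n) (Fin n × Fin n) ℝ :=
  1 - Up n - ε ^ 2 • (Up n)ᵀ - ε • (Rt n + (Rt n)ᵀ)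

theorem conj_NA (n : ℕ) (ε : ℝ) :
    (1 - ε • Adj n) * diagonal (fun q : Fin n × Fin n => ε ^ (q.2 : ℕ)) =
      diagonal (fun q : Fin n × Fin n => ε ^ (q.2 : ℕ)) * NA n ε := by
  ext u v
  rw [Matrix.mul_diagonal, Matrix.diagonal_mul]
  have a1 : (1 : Matrix _ _ ℝ) u v * ε ^ (v.2 : ℕ) = ε ^ (u.2 : ℕ) * (1 : Matrix _ _ ℝ) u v := by
    by_cases h : u = v
    · rw [h, mul_comm]
    · rw [Matrix.one_apply_ne h, zero_mul, mul_zero]
  have a2 : ε * Up n u v * ε ^ (v.2 : ℕ) = ε ^ (u.2 : ℕ) * Up n u v := by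
    simp only [Up, Matrix.of_apply]
    split_ifs with h
    · rw [h.2]
      ring
    · ring
  have a3 : ε * Up n v u * ε ^ (v.2 : ℕ) = ε ^ (u.2 : ℕ) * (ε ^ 2 * Up n v u) := by
    simp only [Up, Matrix.of_apply]
    split_ifs with h
    · rw [h.2]
      ring
    · ring
  have a4 : Rt n u v * ε ^ (v.2 : ℕ) = ε ^ (u.2 : ℕ) * Rt n u v := by
    simp only [Rt, Matrix.of_apply]
    split_ifs with h
    · rw [h.1]
      ring
    · ring
  have a5 : Rt n v u * ε ^ (v.2 : ℕ) = ε ^ (u.2 : ℕ) * Rt n v u := by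
    simp only [Rt, Matrix.of_apply]
    split_ifs with h
    · rw [h.1]
      ring
    · ring
  simp only [Adj, NA, Matrix.sub_apply, Matrix.add_apply, Matrix.smul_apply,
    Matrix.transpose_apply, smul_eq_mul]
  linear_combination a1 - a2 - a3 - ε * a4 - ε * a5

theorem det_NA (n : ℕ) : (NA n 0).det ≠ 0 := by
  intro h
  obtain ⟨z, hz, h0⟩ := Matrix.exists_mulVec_eq_zero_iff.2 h
  have h1 : ∀ q, z q = ∑ v, Up n q v * z v := by
    intro q
    have := congrFun h0 q
    simp only [NA, ne_eq, OfNat.ofNat_ne_zero, not_false_eq_true, zero_pow, zero_smul, sub_zero,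
      Matrix.sub_mulVec, Matrix.one_mulVec, Pi.sub_apply, Pi.zero_apply] at this
    exact sub_eq_zero.1 this
  have h2 : ∀ j : ℕ, ∀ q : Fin n × Fin n, (q.2 : ℕ) = j → z q = 0 := by
    intro j
    induction j with
    | zero =>
      intro q hq
      rw [h1]
      refine Finset.sum_eq_zero fun v _ => ?_
      simp only [Up, Matrix.of_apply]
      rw [if_neg (fun h => by omega), zero_mul]
    | succ j ih =>
      intro q hq
      rw [h1]
      refine Finset.sum_eq_zero fun v _ => ?_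
      simp only [Up, Matrix.of_apply]
      split_ifs with h
      · rw [ih v (by omega), mul_zero]
      · rw [zero_mul]
  exact hz (funext fun q => h2 _ q rfl)

/-- the ports on the bottom row -/
def Ep (n : ℕ) : Matrix (Fin (n + 1) × Fin (n + 1)) (Fin (n + 1)) ℝ :=
  Matrix.of fun q a => if q = (a, 0) then 1 else 0

theorem NA_zero (n : ℕ) : (NA (n + 1) 0)⁻¹ * Ep n =
    Matrix.of fun q a => if q.1 = a then (1 : ℝ) else 0 := by
  have h : NA (n + 1) 0 * (Matrix.of fun (q : Fin (n + 1) × Fin (n + 1)) a =>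
      if q.1 = a then (1 : ℝ) else 0) = Ep n := by
    have hz : NA (n + 1) 0 = 1 - Up (n + 1) := by simp [NA]
    rw [hz, Matrix.sub_mul, Matrix.one_mul]
    ext ⟨i, j⟩ a
    simp only [Matrix.sub_apply, Matrix.of_apply, Ep, Matrix.mul_apply]
    rcases Fin.eq_zero_or_eq_succ j with rfl | ⟨j, rfl⟩
    · rw [Finset.sum_eq_zero, sub_zero]
      · simp
      · intro v _
        simp only [Up, Matrix.of_apply]
        rw [if_neg (fun h => by simp at h), zero_mul]
    · rw [Finset.sum_eq_single (i, j.castSucc)]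
      · simp [Up, Fin.succ_ne_zero]
      · rintro ⟨i', j'⟩ _ hv
        simp only [Up, Matrix.of_apply]
        rw [if_neg, zero_mul]
        rintro ⟨h1, h2⟩
        refine hv (Prod.ext h1.symm (Fin.ext ?_))
        simp only [Fin.val_succ, Fin.val_castSucc] at h2 ⊢
        omega
      · simp
  rw [← h, ← Matrix.mul_assoc, Matrix.nonsing_inv_mul _ (Ne.isUnit (det_NA _)), Matrix.one_mul]

/-- the matrix of products -/
noncomputable def Xp (n : ℕ) (ε : ℝ) :
    Matrix (Fin (n + 1) × Fin (n + 1)) (Fin (n + 1) × Fin (n + 1)) ℝ :=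
  Matrix.of fun q p => ((NA (n + 1) ε)⁻¹ * Ep n) q p.1 * ((NA (n + 1) ε)⁻¹ * Ep n) q.swap p.2

theorem eps_exists (n : ℕ) (r : ℝ) (hr : 0 < r) :
    ∃ ε : ℝ, 0 < ε ∧ ε < r ∧ (NA (n + 1) ε).det ≠ 0 ∧ (Xp n ε).det ≠ 0 := by
  have c1 : Continuous (NA (n + 1)) := by
    unfold NA
    fun_prop
  have e1 : ∀ᶠ ε in 𝓝 (0 : ℝ), (NA (n + 1) ε).det ≠ 0 :=
    c1.matrix_det.continuousAt.eventually_ne (det_NA _)
  have c2 : ContinuousAt (fun ε => (NA (n + 1) ε)⁻¹) 0 := by
    refine ContinuousAt.comp (g := Inv.inv) (continuousAt_matrix_inv _ ?_) c1.continuousAt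
    rw [Ring.inverse_eq_inv']
    exact continuousAt_inv₀ (det_NA _)
  have c3 : ∀ q a, ContinuousAt (fun ε => ((NA (n + 1) ε)⁻¹ * Ep n) q a) 0 := by
    intro q a
    have : Continuous fun A : Matrix (Fin (n + 1) × Fin (n + 1)) (Fin (n + 1) × Fin (n + 1)) ℝ =>
        (A * Ep n) q a := (continuous_id.matrix_mul continuous_const).matrix_elem q a
    exact this.continuousAt.comp c2
  have c4 : ContinuousAt (Xp n) 0 :=
    continuousAt_pi.2 fun q => continuousAt_pi.2 fun p => (c3 _ _).mul (c3 _ _)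
  have h0 : Xp n 0 = 1 := by
    ext q p
    simp only [Xp, NA_zero, Matrix.of_apply, Prod.fst_swap, Matrix.one_apply, Prod.ext_iff]
    by_cases h1 : q.1 = p.1 <;> by_cases h2 : q.2 = p.2 <;> simp [h1, h2]
  have e2 : ∀ᶠ ε in 𝓝 (0 : ℝ), (Xp n ε).det ≠ 0 := by
    have : ContinuousAt (fun ε => (Xp n ε).det) 0 :=
      (continuous_id.matrix_det).continuousAt.comp c4
    refine this.eventually_ne ?_
    rw [h0, Matrix.det_one]
    exact one_ne_zero
  have e3 : ∀ᶠ ε in 𝓝 (0 : ℝ), ε < r := eventually_lt_nhds hr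
  have e4 : ∀ᶠ ε in 𝓝[>] (0 : ℝ), 0 < ε := self_mem_nhdsWithin
  obtain ⟨ε, a1, a2, a3, a4⟩ :=
    (e4.and ((e3.and (e1.and e2)).filter_mono nhdsWithin_le_nhds)).exists
  exact ⟨ε, a1, a2, a3, a4⟩

theorem GAD_pf : GAD_st := by
  intro n
  have hc : (0 : ℝ) < Fintype.card (Fin (n + 1) × Fin (n + 1)) := by
    exact_mod_cast Fintype.card_pos
  obtain ⟨ε, e0, e1, e2, e3⟩ := eps_exists n
    (1 / (16 * Fintype.card (Fin (n + 1) × Fin (n + 1)))) (by positivity)
  have u0 : ∀ u v, 0 ≤ Up (n + 1) u v ∧ Up (n + 1) u v ≤ 1 := fun u v => by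
    simp only [Up, Matrix.of_apply]
    split_ifs <;> norm_num
  have r0 : ∀ u v, 0 ≤ Rt (n + 1) u v ∧ Rt (n + 1) u v ≤ 1 := fun u v => by
    simp only [Rt, Matrix.of_apply]
    split_ifs <;> norm_num
  have a0 : ∀ u v, Adj (n + 1) u v =
      Up (n + 1) u v + Up (n + 1) v u + (Rt (n + 1) u v + Rt (n + 1) v u) := fun u v => rfl
  have c0 : ∀ u v, u ≠ v → ((2 : ℝ) • (1 - ε • Adj (n + 1))) u v = -(2 * ε * Adj (n + 1) u v) := by
    intro u v h
    simp only [Matrix.smul_apply, Matrix.sub_apply, Matrix.one_apply_ne h, smul_eq_mul]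
    ring
  obtain ⟨GA, hGA⟩ : ∃ GA : Matrix (Fin (n + 1) × Fin (n + 1)) (Fin (n + 1)) ℝ, GA =
    (1 / 2 : ℝ) • (diagonal (fun q : Fin (n + 1) × Fin (n + 1) => ε ^ (q.2 : ℕ)) *
      ((NA (n + 1) ε)⁻¹ * Ep n)) := ⟨_, rfl⟩
  have hA : ∀ q a, (((2 : ℝ) • (1 - ε • Adj (n + 1))) * GA :
      Matrix (Fin (n + 1) × Fin (n + 1)) (Fin (n + 1)) ℝ) q a = if q = (a, 0) then 1 else 0 := by
    intro q a
    rw [hGA, Matrix.smul_mul, Matrix.mul_smul, smul_smul, ← Matrix.mul_assoc, conj_NA,
      Matrix.mul_assoc, ← Matrix.mul_assoc (NA _ _), Matrix.mul_nonsing_inv _ (Ne.isUnit e2),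
      Matrix.one_mul, Matrix.smul_apply, Matrix.diagonal_mul]
    simp only [Ep, Matrix.of_apply, smul_eq_mul]
    split_ifs with h
    · rw [h]
      simp
    · simp
  refine ⟨Fin (n + 1) × Fin (n + 1), inferInstance, inferInstance,
    (2 : ℝ) • (1 - ε • Adj (n + 1)), fun a => (a, 0), fun b => (0, b), GA,
    Matrix.of fun q b => GA q.swap b, ?_, ?_, ?_, ?_, hA, ?_, ?_⟩
  · refine Matrix.IsSymm.ext fun u v => ?_
    by_cases h : u = v
    · rw [h]
    · rw [c0 _ _ h, c0 _ _ (Ne.symm h), a0, a0]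
      ring
  · intro u v h
    rw [c0 _ _ h, a0]
    have := add_nonneg (add_nonneg (u0 u v).1 (u0 v u).1) (add_nonneg (r0 u v).1 (r0 v u).1)
    have := mul_nonneg e0.le this
    linarith
  · refine ⟨fun q => ((q.1 : ℕ), (q.2 : ℕ)), ?_, ?_⟩
    · intro u v h
      obtain ⟨h1, h2⟩ := Prod.mk.inj h
      exact Prod.ext (Fin.ext (by omega)) (Fin.ext (by omega))
    · rintro u v ⟨h1, h2⟩
      rw [c0 _ _ h1, a0] at h2
      by_contra h3
      apply h2
      simp only [Up, Rt, Matrix.of_apply]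
      rw [if_neg, if_neg, if_neg, if_neg]
      · ring
      all_goals
        rintro ⟨h4, h5⟩
        apply h3
        simp only [h4, h5]
        simp
  · intro z
    have h1 := form_le (Adj (n + 1)) 4 (fun u v => by
      rw [a0, abs_le]
      constructor <;> linarith [u0 u v, u0 v u, r0 u v, r0 v u]) z
    have h2 : z ⬝ᵥ z = ∑ u, z u ^ 2 := Finset.sum_congr rfl fun u _ => (sq _).symm
    have h3 : 0 ≤ ∑ u, z u ^ 2 := Finset.sum_nonneg fun u _ => sq_nonneg _
    rw [Matrix.smul_mulVec, Matrix.sub_mulVec, Matrix.one_mulVec, Matrix.smul_mulVec,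
      dotProduct_smul, dotProduct_sub, dotProduct_smul, h2, smul_eq_mul, smul_eq_mul]
    rw [lt_div_iff₀ (by positivity)] at e1
    have h4 := mul_le_mul_of_nonneg_left h1 e0.le
    nlinarith [mul_le_mul_of_nonneg_right e1.le h3]
  · intro q b
    have h1 := hA q.swap b
    have h2 : ∀ u v : Fin (n + 1) × Fin (n + 1), ((2 : ℝ) • (1 - ε • Adj (n + 1))) u.swap v =
        ((2 : ℝ) • (1 - ε • Adj (n + 1))) u v.swap := by
      rintro ⟨u1, u2⟩ ⟨v1, v2⟩
      simp only [Matrix.smul_apply, Matrix.sub_apply, Matrix.one_apply, a0, Up, Rt,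
        Matrix.of_apply, Prod.swap_prod_mk, Prod.mk.injEq, and_comm, smul_eq_mul]
      ring
    have h3 : (q.swap = (b, 0)) ↔ q = (0, b) := by
      rcases q with ⟨q1, q2⟩
      simp [and_comm]
    rw [Matrix.mul_apply] at h1 ⊢
    rw [← (Equiv.prodComm _ _).sum_comp, ← if_congr h3 rfl rfl, ← h1]
    exact Finset.sum_congr rfl fun v _ => by rw [h2]; rfl
  · intro Y hY
    have h1 : Xp n ε *ᵥ (fun p => Y p.1 p.2) = 0 := by
      funext q
      have h2 := hY q
      have h3 : ∑ a, ∑ b, GA q a * Y a b * (Matrix.of fun q b => GA q.swap b) q b =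
          ε ^ (q.2 : ℕ) * ε ^ (q.1 : ℕ) / 4 * (Xp n ε *ᵥ fun p => Y p.1 p.2) q := by
        simp only [hGA, Matrix.of_apply, Matrix.smul_apply, Matrix.diagonal_mul, Matrix.mulVec,
          dotProduct, Fintype.sum_prod_type, Finset.mul_sum, Xp, smul_eq_mul, Prod.snd_swap]
        exact Finset.sum_congr rfl fun a _ => Finset.sum_congr rfl fun b _ => by ring
      rw [h3] at h2
      exact (mul_eq_zero.1 h2).resolve_left (by positivity)
    have h4 : (fun p : Fin (n + 1) × Fin (n + 1) => Y p.1 p.2) = 0 := by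
      by_contra h
      exact e3 (Matrix.exists_mulVec_eq_zero_iff.1 ⟨_, h, h1⟩)
    ext a b
    exact congrFun h4 (a, b)

end Pool.Agent.MP_4f0ed6_gt.CdV

end

section

open Matrix Finset Filter Topology

namespace Pool.Agent.MP_4f0ed6_gt.CdV

theorem pos_blocks {U V : Type} [Fintype U] [Fintype V] {C : Matrix U U ℝ} {E : Matrix V V ℝ}
    {c : ℝ} (hC : ∀ z : U → ℝ, c * ∑ u, z u ^ 2 ≤ z ⬝ᵥ C *ᵥ z)
    (hE : ∀ z : V → ℝ, c * ∑ u, z u ^ 2 ≤ z ⬝ᵥ E *ᵥ z) (z : U ⊕ V → ℝ) :
    c * ∑ u, z u ^ 2 ≤ z ⬝ᵥ fromBlocks C 0 0 E *ᵥ z := by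
  have h1 := hC fun u => z (Sum.inl u)
  have h2 := hE fun u => z (Sum.inr u)
  simp only [dotProduct, Matrix.mulVec, Fintype.sum_sum_type, Matrix.fromBlocks_apply₁₁,
    Matrix.fromBlocks_apply₁₂, Matrix.fromBlocks_apply₂₁, Matrix.fromBlocks_apply₂₂,
    Matrix.zero_apply, zero_mul, Finset.sum_const_zero, add_zero, zero_add] at h1 h2 ⊢
  linarith

theorem off_blocks {U V : Type} {C : Matrix U U ℝ} {E : Matrix V V ℝ}
    (hC : ∀ u v, u ≠ v → C u v ≤ 0) (hE : ∀ u v, u ≠ v → E u v ≤ 0) :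
    ∀ u v, u ≠ v → fromBlocks C 0 0 E u v ≤ 0 := by
  rintro (u | u) (v | v) h
  · exact hC u v fun e => h (by rw [e])
  · exact le_rfl
  · exact le_rfl
  · exact hE u v fun e => h (by rw [e])

theorem symm_blocks {U V : Type} {C : Matrix U U ℝ} {E : Matrix V V ℝ}
    (hC : C.IsSymm) (hE : E.IsSymm) : (fromBlocks C 0 0 E).IsSymm :=
  Matrix.IsSymm.fromBlocks hC Matrix.transpose_zero hE

theorem pos_pert {U : Type} [Fintype U] [DecidableEq U] {C : Matrix U U ℝ} {c δ c' : ℝ}
    {s : U → ℝ} (hC : ∀ z : U → ℝ, c * ∑ u, z u ^ 2 ≤ z ⬝ᵥ C *ᵥ z) (hs : ∀ u, |s u| ≤ δ)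
    (hc : c' ≤ c - δ) (z : U → ℝ) : c' * ∑ u, z u ^ 2 ≤ z ⬝ᵥ (C + diagonal s) *ᵥ z := by
  have h1 : -δ * ∑ u, z u ^ 2 ≤ z ⬝ᵥ diagonal s *ᵥ z := by
    rw [Finset.mul_sum]
    refine Finset.sum_le_sum fun u _ => ?_
    rw [Matrix.mulVec_diagonal]
    nlinarith [mul_nonneg (neg_le_iff_add_nonneg.1 (abs_le.1 (hs u)).1) (sq_nonneg (z u))]
  have h3 : 0 ≤ ∑ u, z u ^ 2 := Finset.sum_nonneg fun u _ => sq_nonneg _
  rw [Matrix.add_mulVec, dotProduct_add]
  nlinarith [hC z, mul_le_mul_of_nonneg_right hc h3]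

theorem inj_of_pos {U : Type} [Fintype U] {C : Matrix U U ℝ} {c : ℝ} (hc : 0 < c)
    (hC : ∀ z : U → ℝ, c * ∑ u, z u ^ 2 ≤ z ⬝ᵥ C *ᵥ z) (z : U → ℝ) (hz : C *ᵥ z = 0) : z = 0 := by
  have h1 := hC z
  rw [hz, dotProduct_zero] at h1
  have h3 : 0 ≤ ∑ u, z u ^ 2 := Finset.sum_nonneg fun u _ => sq_nonneg _
  have h4 : ∑ u, z u ^ 2 = 0 := by nlinarith
  funext u
  exact pow_eq_zero_iff two_ne_zero |>.1
    ((Finset.sum_eq_zero_iff_of_nonneg fun u _ => sq_nonneg _).1 h4 u (Finset.mem_univ u))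

theorem resp_symm {U D : Type} [Fintype U] {C : Matrix U U ℝ} {B : Matrix D U ℝ}
    {G : Matrix U D ℝ} (h1 : C.IsSymm) (h2 : C * G = Bᵀ) : (B * G).IsSymm := by
  have hB : B = Gᵀ * C := by
    rw [← Matrix.transpose_transpose B, ← h2, Matrix.transpose_mul, h1.eq]
  rw [Matrix.IsSymm, Matrix.transpose_mul, ← h2, ← Matrix.mul_assoc, ← hB]

theorem SUM_pf (hP : PER_st) (hG : GAD_st) : SUM_st := by
  rintro n l η hη ⟨U, _, _, C, B, G, g⟩
  obtain ⟨Q, _, _, E, πA, πB, GA, GB, q1, q2, q3, q4, q5, q6, q7⟩ := hG n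
  obtain ⟨c, hc, hpos⟩ := g.pos
  obtain ⟨PA, hPA⟩ : ∃ PA : Matrix (Fin (n + 1)) Q ℝ,
    PA = Matrix.of fun a q => if q = πA a then 1 else 0 := ⟨_, rfl⟩
  obtain ⟨PB, hPB⟩ : ∃ PB : Matrix (Fin (n + 1)) Q ℝ,
    PB = Matrix.of fun a q => if q = πB a then 1 else 0 := ⟨_, rfl⟩
  have sA : E * GA = PAᵀ := by
    ext q a
    rw [q5, hPA]
    rfl
  have sB : E * GB = PBᵀ := by
    ext q a
    rw [q6, hPB]
    rfl
  have hδ : 0 < (c - 1) / 2 := by linarith
  have hi := inj_of_pos (by linarith) hpos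
  have e1 := hP U _ C B G g.symm hi g.sol g.diag g.ctrl _ (resp_symm q1 sA) _ hδ
  have e2 := hP U _ C B G g.symm hi g.sol g.diag g.ctrl _ (resp_symm q1 sB) _ hδ
  have e3 : ∀ᶠ τ in 𝓝 (0 : ℝ), τ < η / (4 * (n + 1)) := eventually_lt_nhds (by positivity)
  have e4 : ∀ᶠ τ in 𝓝[>] (0 : ℝ), 0 < τ := self_mem_nhdsWithin
  obtain ⟨τ, τ0, τ1, ⟨s1, G1, a1, a2, a3, a4⟩, s2, G2, b1, b2, b3, b4⟩ :=
    (e4.and ((e3.and (e1.and e2)).filter_mono nhdsWithin_le_nhds)).exists
  obtain ⟨t, ht⟩ : ∃ t : ℝ, t * t = τ / 2 := ⟨√(τ / 2), Real.mul_self_sqrt (by positivity)⟩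
  refine ⟨(U ⊕ U) ⊕ (Q ⊕ Q), inferInstance, inferInstance,
    fromBlocks (fromBlocks (C + diagonal s1) 0 0 (C + diagonal s2)) 0 0 (fromBlocks E 0 0 E),
    fromCols (fromBlocks B 0 0 B) (fromBlocks (t • PA) (t • PA) (t • PB) ((-t) • PB)),
    fromRows (fromBlocks G1 0 0 G2) (fromBlocks (t • GA) (t • GB) (t • GA) ((-t) • GB)),
    ?_, ?_, ?_, ?_, ?_, ?_, ?_, ?_, ?_⟩
  · exact symm_blocks (symm_blocks (g.symm.add (Matrix.isSymm_diagonal _))
      (g.symm.add (Matrix.isSymm_diagonal _))) (symm_blocks q1 q1)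
  · have : ∀ s : U → ℝ, ∀ u v, u ≠ v → (C + diagonal s) u v ≤ 0 := fun s u v h => by
      rw [Matrix.add_apply, Matrix.diagonal_apply_ne _ h, add_zero]
      exact g.off u v h
    exact off_blocks (off_blocks (this s1) (this s2)) (off_blocks q2 q2)
  · have : ∀ s : U → ℝ, Lat (Pat (C + diagonal s)) := fun s =>
      g.lat.comap id Function.injective_id fun u v h => ⟨h.1, by
        have := h.2
        rwa [Matrix.add_apply, Matrix.diagonal_apply_ne _ h.1, add_zero] at this⟩
    exact ((this s1).blocks (this s2)).blocks (q3.blocks q3)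
  · have h1 : min ((c + 1) / 2) (3 / 2) ≤ c - (c - 1) / 2 := (min_le_left _ _).trans (by linarith)
    have h2 : ∀ z : Q → ℝ, min ((c + 1) / 2) (3 / 2) * ∑ u, z u ^ 2 ≤ z ⬝ᵥ E *ᵥ z := fun z =>
      (mul_le_mul_of_nonneg_right (min_le_right _ _)
        (Finset.sum_nonneg fun u _ => sq_nonneg _)).trans (q4 z)
    exact ⟨min ((c + 1) / 2) (3 / 2), lt_min (by linarith) (by norm_num),
      pos_blocks (pos_blocks (pos_pert hpos a1 h1) (pos_pert hpos b1 h1)) (pos_blocks h2 h2)⟩
  · rw [Matrix.fromBlocks_mul_fromRows, Matrix.transpose_fromCols, Matrix.fromBlocks_multiply,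
      Matrix.fromBlocks_multiply, Matrix.fromBlocks_transpose, Matrix.fromBlocks_transpose]
    simp only [Matrix.zero_mul, Matrix.mul_zero, add_zero, zero_add, Matrix.mul_smul, a2, b2, sA,
      sB, Matrix.transpose_smul, Matrix.transpose_zero, smul_zero]
  · rw [Matrix.fromCols_mul_fromRows, Matrix.fromBlocks_multiply, Matrix.fromBlocks_multiply]
    simp only [Matrix.zero_mul, Matrix.mul_zero, add_zero, zero_add, Matrix.mul_smul,
      Matrix.smul_mul]
    rintro (x | x) (y | y) h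
    · have := a3 x y fun e => h (by rw [e])
      simp only [Matrix.add_apply, Matrix.fromBlocks_apply₁₁, Matrix.smul_apply, smul_eq_mul]
      linear_combination this + 2 * (PA * GA) x y * ht
    · simp only [Matrix.add_apply, Matrix.fromBlocks_apply₁₂, Matrix.smul_apply, smul_eq_mul,
        Matrix.zero_apply]
      ring
    · simp only [Matrix.add_apply, Matrix.fromBlocks_apply₂₁, Matrix.smul_apply, smul_eq_mul,
        Matrix.zero_apply]
      ring
    · have := b3 x y fun e => h (by rw [e])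
      simp only [Matrix.add_apply, Matrix.fromBlocks_apply₂₂, Matrix.smul_apply, smul_eq_mul]
      linear_combination this + 2 * (PB * GB) x y * ht
  · intro Y y1 y2 y3
    have c1 := a4 (Matrix.of fun a b => Y (Sum.inl a) (Sum.inl b))
      (Matrix.IsSymm.ext fun a b => y1.apply _ _) (fun a => y2 _) fun u => by
        simpa [Fintype.sum_sum_type] using y3 (Sum.inl (Sum.inl u))
    have c2 := b4 (Matrix.of fun a b => Y (Sum.inr a) (Sum.inr b))
      (Matrix.IsSymm.ext fun a b => y1.apply _ _) (fun a => y2 _) fun u => by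
        simpa [Fintype.sum_sum_type] using y3 (Sum.inl (Sum.inr u))
    have d1 : ∀ a b, Y (Sum.inl a) (Sum.inl b) = 0 := fun a b => congrFun (congrFun c1 a) b
    have d2 : ∀ a b, Y (Sum.inr a) (Sum.inr b) = 0 := fun a b => congrFun (congrFun c2 a) b
    have c3 := q7 (Matrix.of fun a b => Y (Sum.inl a) (Sum.inr b)) fun q => by
      have h1 := y3 (Sum.inr (Sum.inl q))
      simp only [Fintype.sum_sum_type, Matrix.fromRows_apply_inr, Matrix.fromBlocks_apply₁₁,
        Matrix.fromBlocks_apply₁₂, Matrix.smul_apply, smul_eq_mul, d1, d2, mul_zero, zero_mul,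
        Finset.sum_const_zero, zero_add, add_zero] at h1
      have h2 : ∑ a, ∑ b, t * GA q a * Y (Sum.inl a) (Sum.inr b) * (t * GB q b) =
          τ / 2 * ∑ a, ∑ b, GA q a * Y (Sum.inl a) (Sum.inr b) * GB q b := by
        simp only [Finset.mul_sum, ← ht]
        exact Finset.sum_congr rfl fun a _ => Finset.sum_congr rfl fun b _ => by ring
      have h3 : ∑ b, ∑ a, t * GB q b * Y (Sum.inr b) (Sum.inl a) * (t * GA q a) =
          τ / 2 * ∑ a, ∑ b, GA q a * Y (Sum.inl a) (Sum.inr b) * GB q b := by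
        rw [Finset.sum_comm]
        simp only [Finset.mul_sum, ← ht]
        exact Finset.sum_congr rfl fun a _ => Finset.sum_congr rfl fun b _ => by
          rw [y1.apply]
          ring
      rw [h2, h3] at h1
      have h4 : τ * ∑ a, ∑ b, GA q a * Y (Sum.inl a) (Sum.inr b) * GB q b = 0 := by linarith
      exact (mul_eq_zero.1 h4).resolve_left τ0.ne'
    have d3 : ∀ a b, Y (Sum.inl a) (Sum.inr b) = 0 := fun a b => congrFun (congrFun c3 a) b
    ext (a | a) (b | b)
    · exact d1 a b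
    · exact d3 a b
    · rw [y1.apply]
      exact d3 b a
    · exact d2 a b
  · have h1 : ∀ (π : Fin (n + 1) → Q) (r : ℝ), r * r = τ / 2 →
        ∑ a, ∑ q, (r * if q = π a then (1 : ℝ) else 0) ^ 2 = (n + 1) * (τ / 2) := by
      intro π r hr
      simp [← hr, sq]
    have h2 := g.small
    have h3 := h1 πA t ht
    have h4 := h1 πB t ht
    have h5 := h1 πB (-t) (by rw [neg_mul_neg, ht])
    simp only [Fintype.sum_sum_type, Matrix.fromCols_apply_inl, Matrix.fromCols_apply_inr,
      Matrix.fromBlocks_apply₁₁, Matrix.fromBlocks_apply₁₂, Matrix.fromBlocks_apply₂₁,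
      Matrix.fromBlocks_apply₂₂, Matrix.zero_apply, Matrix.smul_apply, smul_eq_mul, hPA, hPB,
      Matrix.of_apply, Finset.sum_add_distrib, h3, h4, h5, ne_eq, OfNat.ofNat_ne_zero,
      not_false_eq_true, zero_pow, Finset.sum_const_zero]
    rw [lt_div_iff₀ (by positivity)] at τ1
    linarith
  · obtain ⟨S, hS, hB⟩ := g.legs
    refine ⟨(S.image (fun p => (Sum.inl p.1, Sum.inl (Sum.inl p.2))) ∪
        S.image fun p => (Sum.inr p.1, Sum.inl (Sum.inr p.2))) ∪
      ((univ.image (fun a => (Sum.inl a, Sum.inr (Sum.inl (πA a)))) ∪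
        univ.image fun a => (Sum.inl a, Sum.inr (Sum.inr (πA a)))) ∪
      (univ.image (fun a => (Sum.inr a, Sum.inr (Sum.inl (πB a)))) ∪
        univ.image fun a => (Sum.inr a, Sum.inr (Sum.inr (πB a))))), ?_, ?_⟩
    · have h1 : ∀ f : Fin (n + 1) → (Fin (n + 1) ⊕ Fin (n + 1)) × ((U ⊕ U) ⊕ (Q ⊕ Q)),
          (univ.image f).card ≤ n + 1 := fun f => Finset.card_image_le.trans (by simp)
      have h2 : ∀ f : Fin (n + 1) × U → (Fin (n + 1) ⊕ Fin (n + 1)) × ((U ⊕ U) ⊕ (Q ⊕ Q)),
          (S.image f).card ≤ l := fun f => Finset.card_image_le.trans hS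
      refine (Finset.card_union_le _ _).trans ?_
      refine (add_le_add ((Finset.card_union_le _ _).trans (add_le_add (h2 _) (h2 _)))
        ((Finset.card_union_le _ _).trans (add_le_add
          ((Finset.card_union_le _ _).trans (add_le_add (h1 _) (h1 _)))
          ((Finset.card_union_le _ _).trans (add_le_add (h1 _) (h1 _)))))).trans ?_
      omega
    · rintro (x | x) ((u | u) | (u | u)) h <;>
        simp only [Matrix.fromCols_apply_inl, Matrix.fromCols_apply_inr,
          Matrix.fromBlocks_apply₁₁, Matrix.fromBlocks_apply₁₂, Matrix.fromBlocks_apply₂₁,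
          Matrix.fromBlocks_apply₂₂, Matrix.zero_apply, Matrix.smul_apply, smul_eq_mul, hPA, hPB,
          Matrix.of_apply, ne_eq, not_true_eq_false, mul_ite, mul_one, mul_zero,
          ite_eq_right_iff, Classical.not_imp] at h
      · simpa using hB x u h
      · simp [h.1]
      · simp [h.1]
      · simpa using hB x u h
      · simp [h.1]
      · simp [h.1]

theorem Sys.equiv {D D' : Type} [Fintype D] [Fintype D'] {η : ℝ} {l : ℕ} (h : Sys D η l)
    (e : D' ≃ D) : Sys D' η l := by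
  classical
  obtain ⟨U, _, _, C, B, G, g⟩ := h
  refine ⟨U, inferInstance, inferInstance, C, B.submatrix e id, G.submatrix id e, g.symm, g.off,
    g.lat, g.pos, ?_, fun x y h => g.diag _ _ (e.injective.ne h), ?_, ?_, ?_⟩
  · ext u x
    exact congrFun (congrFun g.sol u) (e x)
  · intro Y y1 y2 y3
    have := g.ctrl (Y.submatrix e.symm e.symm) (y1.submatrix _) (fun x => y2 _) fun u => by
      rw [← y3 u, ← e.sum_comp]
      refine Finset.sum_congr rfl fun x _ => ?_
      rw [← e.sum_comp]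
      simp
    ext x y
    simpa using congrFun (congrFun this (e x)) (e y)
  · refine le_trans (le_of_eq ?_) g.small
    rw [← e.sum_comp]
    rfl
  · obtain ⟨S, hS, hB⟩ := g.legs
    refine ⟨S.image fun p => (e.symm p.1, p.2), Finset.card_image_le.trans hS, fun x u h => ?_⟩
    exact Finset.mem_image.2 ⟨(e x, u), hB _ _ h, by simp⟩

theorem POW_pf (hS : SUM_st) : POW_st := by
  intro h
  induction h with
  | zero =>
    intro η hη D _ hD
    have : Subsingleton D := Fintype.card_le_one_iff_subsingleton.1 (by omega)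
    refine ⟨Empty, inferInstance, inferInstance, 0, 0, 0, Matrix.isSymm_zero, fun u => u.elim,
      ⟨fun u => u.elim, fun u => u.elim, fun u => u.elim⟩, ⟨2, by norm_num, by simp⟩, by simp,
      by simp, ?_, by simpa using hη.le, ∅, by simp, by simp⟩
    intro Y _ y2 _
    ext x y
    rw [Subsingleton.elim y x]
    exact y2 x
  | succ h ih =>
    intro η hη D _ hD
    obtain ⟨n, hn⟩ : ∃ n, 2 ^ h = n + 1 := Nat.exists_eq_succ_of_ne_zero (by positivity)
    have h1 := hS n _ η hη (ih (η / 4) (by positivity) (Fin (n + 1)) (by simp [hn]))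
    have h2 : 2 * (2 * h * 2 ^ h) + 4 * (n + 1) = 2 * (h + 1) * 2 ^ (h + 1) := by
      rw [← hn]
      ring
    rw [h2] at h1
    refine h1.equiv (Fintype.equivOfCardEq ?_)
    rw [hD, pow_succ, hn]
    simp
    ring

end Pool.Agent.MP_4f0ed6_gt.CdV

end

section

open Matrix Finset

namespace Pool.Agent.MP_4f0ed6_gt.CdV

theorem index_one {V : Type} [Fintype V] [DecidableEq V] {M : Matrix V V ℝ} (hM : M.IsHermitian)
    (W n : V → ℝ) (h1 : ∀ f : V → ℝ, W ⬝ᵥ f = 0 → 0 ≤ f ⬝ᵥ M *ᵥ f) (h2 : n ⬝ᵥ M *ᵥ n < 0) :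
    (Finset.univ.filter fun i => hM.eigenvalues i < 0).card = 1 := by
  apply le_antisymm
  · rw [Finset.card_le_one]
    intro i hi j hj
    by_contra hij
    have li := (Finset.mem_filter.1 hi).2
    have lj := (Finset.mem_filter.1 hj).2
    have ho : ∀ a b, (⇑(hM.eigenvectorBasis a) : V → ℝ) ⬝ᵥ ⇑(hM.eigenvectorBasis b) =
        if a = b then 1 else 0 := by
      intro a b
      have := orthonormal_iff_ite.1 hM.eigenvectorBasis.orthonormal a b
      rw [EuclideanSpace.inner_eq_star_dotProduct, star_trivial, dotProduct_comm] at this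
      exact this
    have ei := hM.mulVec_eigenvectorBasis i
    have ej := hM.mulVec_eigenvectorBasis j
    have oii := ho i i
    have ojj := ho j j
    have oij := ho i j
    have oji := ho j i
    rw [if_pos rfl] at oii ojj
    rw [if_neg hij] at oij
    rw [if_neg (Ne.symm hij)] at oji
    generalize (⇑(hM.eigenvectorBasis i) : V → ℝ) = x at *
    generalize (⇑(hM.eigenvectorBasis j) : V → ℝ) = y at *
    by_cases ha : W ⬝ᵥ x = 0
    · have := h1 x ha
      rw [ei, dotProduct_smul, oii, smul_eq_mul] at this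
      linarith
    · have := h1 ((W ⬝ᵥ y) • x - (W ⬝ᵥ x) • y) (by
        rw [dotProduct_sub, dotProduct_smul, dotProduct_smul, smul_eq_mul, smul_eq_mul]
        ring)
      simp only [Matrix.mulVec_sub, Matrix.mulVec_smul, ei, ej, dotProduct_sub, sub_dotProduct,
        dotProduct_smul, smul_dotProduct, oii, ojj, oij, oji, smul_eq_mul] at this
      nlinarith [mul_nonneg (sq_nonneg (W ⬝ᵥ y)) (neg_pos.2 li).le,
        mul_pos (sq_pos_of_ne_zero ha) (neg_pos.2 lj)]
  · rw [Finset.one_le_card]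
    by_contra h
    have h3 : M.PosSemidef := hM.posSemidef_iff_eigenvalues_nonneg.2 fun i => by
      by_contra hi
      exact h ⟨i, Finset.mem_filter.2 ⟨Finset.mem_univ i, not_le.1 hi⟩⟩
    have := h3.dotProduct_mulVec_nonneg n
    rw [star_trivial] at this
    linarith

theorem lift_mulVec {I : Type} [Fintype I] (P N : Matrix I I ℝ) (f : I × Bool → ℝ) (i : I)
    (s : Bool) : (lift P N *ᵥ f) (i, s) =
      ((P *ᵥ fun j => f (j, true) + f (j, false)) i +
        (if s then 1 else -1) * (N *ᵥ fun j => f (j, true) - f (j, false)) i) / 2 := by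
  simp only [Matrix.mulVec, dotProduct, lift, Matrix.of_apply, Fintype.sum_prod_type,
    Fintype.sum_bool, Finset.mul_sum, ← Finset.sum_add_distrib, Finset.sum_div]
  refine Finset.sum_congr rfl fun j _ => ?_
  cases s <;> simp <;> ring

theorem lift_form {I : Type} [Fintype I] (P N : Matrix I I ℝ) (f : I × Bool → ℝ) :
    f ⬝ᵥ lift P N *ᵥ f =
      ((fun j => f (j, true) + f (j, false)) ⬝ᵥ (P *ᵥ fun j => f (j, true) + f (j, false)) +
        (fun j => f (j, true) - f (j, false)) ⬝ᵥ (N *ᵥ fun j => f (j, true) - f (j, false))) /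
          2 := by
  simp only [dotProduct, Fintype.sum_prod_type, Fintype.sum_bool, lift_mulVec,
    ← Finset.sum_add_distrib, Finset.sum_div]
  refine Finset.sum_congr rfl fun j _ => ?_
  simp
  ring

theorem lift_symm {I : Type} {P N : Matrix I I ℝ} (hP : P.IsSymm) (hN : N.IsSymm) :
    (lift P N).IsSymm := by
  refine Matrix.IsSymm.ext fun v w => ?_
  simp only [lift, Matrix.of_apply, hP.apply v.1, hN.apply v.1, eq_comm]

theorem LIF_pf : LIF_st := by
  intro I _ _ P N w n hP hN h1 h2 h3 h4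
  have hM : (lift P N).IsHermitian := by
    rw [Matrix.IsHermitian, Matrix.conjTranspose_eq_transpose_of_trivial]
    exact lift_symm hP hN
  have h2' : ∀ p : I → ℝ, w ⬝ᵥ p = 0 → 0 ≤ p ⬝ᵥ P *ᵥ p := fun p hp => by
    by_cases h : p = 0
    · simp [h]
    · exact (h2 p hp h).le
  have hi : ∀ p : I → ℝ, P *ᵥ p = 0 → p = 0 := by
    intro p hp
    have hn : w ⬝ᵥ n ≠ 0 := fun h => (h2' n h).not_gt h3
    obtain ⟨a, ha⟩ : ∃ a : ℝ, a * (w ⬝ᵥ n) = w ⬝ᵥ p := ⟨_, div_mul_cancel₀ _ hn⟩
    have e1 : w ⬝ᵥ (p - a • n) = 0 := by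
      rw [dotProduct_sub, dotProduct_smul, smul_eq_mul, ha, sub_self]
    have e2 : p ⬝ᵥ P *ᵥ n = 0 := by
      rw [Matrix.dotProduct_mulVec, ← Matrix.mulVec_transpose, hP.eq, hp, zero_dotProduct]
    have e3 : (p - a • n) ⬝ᵥ P *ᵥ (p - a • n) = a ^ 2 * (n ⬝ᵥ P *ᵥ n) := by
      simp only [Matrix.mulVec_sub, Matrix.mulVec_smul, hp, dotProduct_sub, sub_dotProduct,
        dotProduct_smul, smul_dotProduct, e2, dotProduct_zero, smul_eq_mul]
      ring
    have e4 := h2' _ e1
    have e5 : a = 0 := by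
      by_contra h
      nlinarith [mul_pos (sq_pos_of_ne_zero h) (neg_pos.2 h3)]
    by_contra h
    have := h2 p (by rw [← ha, e5, zero_mul]) h
    rw [hp, dotProduct_zero] at this
    exact lt_irrefl _ this
  refine ⟨hM, index_one hM (fun v => w v.1) (fun v => n v.1) ?_ ?_, ?_, ?_⟩
  · intro f hf
    rw [lift_form]
    have := h2' (fun j => f (j, true) + f (j, false)) (by
      rw [← hf]
      simp only [dotProduct, Fintype.sum_prod_type, Fintype.sum_bool, mul_add])
    have := h1 fun j => f (j, true) - f (j, false)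
    positivity
  · rw [lift_form]
    have e1 : (fun j => n j + n j) = (2 : ℝ) • n := by
      funext j
      simp [two_mul]
    have e2 : (fun j => n j - n j) = (0 : I → ℝ) := by
      funext j
      simp
    simp only [e1, e2, Matrix.mulVec_smul, dotProduct_smul, smul_dotProduct, zero_dotProduct,
      smul_eq_mul]
    linarith
  · intro X x1 x2 x3
    have c : ∀ v, (∀ j, X (j, false) v = -X (j, true) v) ∧ N *ᵥ (fun j => X (j, true) v) = 0 := by
      intro v
      have e0 : ∀ i s, (lift P N *ᵥ fun u => X u v) (i, s) = 0 := fun i s =>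
        congrFun (congrFun x3 (i, s)) v
      have e1 : P *ᵥ (fun j => X (j, true) v + X (j, false) v) = 0 := by
        funext i
        have a1 := e0 i true
        have a2 := e0 i false
        rw [lift_mulVec] at a1 a2
        simp only [if_true, Bool.false_eq_true, if_false] at a1 a2
        rw [Pi.zero_apply]
        linarith
      have e2 : ∀ j, X (j, false) v = -X (j, true) v := fun j => by
        have : X (j, true) v + X (j, false) v = 0 := congrFun (hi _ e1) j
        linarith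
      refine ⟨e2, ?_⟩
      funext i
      have a1 := e0 i true
      have e3 : (fun j => X (j, true) v - X (j, false) v) = (2 : ℝ) • fun j => X (j, true) v := by
        funext j
        rw [e2, Pi.smul_apply, smul_eq_mul]
        ring
      rw [lift_mulVec, e1, e3, Matrix.mulVec_smul] at a1
      simpa using a1
    have y := h4 (Matrix.of fun i j => X (i, true) (j, true))
      (Matrix.IsSymm.ext fun i j => x1.apply _ _) (fun i => x2 _) (by
        ext i j
        exact congrFun (c (j, true)).2 i)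
    have y1 : ∀ i j, X (i, true) (j, true) = 0 := fun i j => congrFun (congrFun y i) j
    have y2 : ∀ i j, X (i, true) (j, false) = 0 := fun i j => by
      rw [x1.apply, (c _).1, y1, neg_zero]
    ext ⟨i, _ | _⟩ ⟨j, _ | _⟩
    · rw [(c _).1, y2, neg_zero, Matrix.zero_apply]
    · rw [(c _).1, y1, neg_zero, Matrix.zero_apply]
    · exact y2 i j
    · exact y1 i j
  · let φ : (I → ℝ) →ₗ[ℝ] (I × Bool → ℝ) :=
      { toFun := fun q v => (if v.2 then 1 else -1) * q v.1
        map_add' := fun q q' => by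
          funext v
          simp [mul_add]
        map_smul' := fun a q => by
          funext v
          simp only [Pi.smul_apply, smul_eq_mul, RingHom.id_apply]
          ring }
    have hφ : ∀ q ∈ LinearMap.ker (Matrix.toLin' N),
        φ q ∈ LinearMap.ker (Matrix.toLin' (lift P N)) := by
      intro q hq
      rw [LinearMap.mem_ker, Matrix.toLin'_apply] at hq ⊢
      funext ⟨i, s⟩
      have e1 : (fun j => φ q (j, true) + φ q (j, false)) = 0 := by
        funext j
        simp [φ]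
      have e2 : (fun j => φ q (j, true) - φ q (j, false)) = (2 : ℝ) • q := by
        funext j
        simp [φ, two_mul]
      rw [lift_mulVec, e1, e2, Matrix.mulVec_smul, hq]
      simp
    refine LinearMap.finrank_le_finrank_of_injective (f := φ.restrict hφ) ?_
    intro q q' h
    ext i
    have : φ q (i, true) = φ q' (i, true) := congrFun (congrArg Subtype.val h) (i, true)
    simpa [φ] using this

end Pool.Agent.MP_4f0ed6_gt.CdV

end

section

open Matrix Finset

namespace Pool.Agent.MP_4f0ed6_gt.CdV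

theorem Good.left {U D : Type} [Fintype U] [Fintype D] {C : Matrix U U ℝ} {B : Matrix D U ℝ}
    {G : Matrix U D ℝ} {η : ℝ} {l : ℕ} (g : Good C B G η l) : B = Gᵀ * C := by
  rw [← Matrix.transpose_transpose B, ← g.sol, Matrix.transpose_mul, g.symm.eq]

theorem Good.dg {U D : Type} [Fintype U] [Fintype D] [DecidableEq D] {C : Matrix U U ℝ}
    {B : Matrix D U ℝ} {G : Matrix U D ℝ} {η : ℝ} {l : ℕ} (g : Good C B G η l) :
    (diagonal fun x => (B * G) x x) = B * G := by
  ext x y
  by_cases h : x = y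
  · rw [h, Matrix.diagonal_apply_eq]
  · rw [Matrix.diagonal_apply_ne _ h, g.diag x y h]

theorem ODD_pf : ODD_st := by
  intro U D _ _ _ _ A C B G η l g hA hp
  obtain ⟨c, hc, hpos⟩ := g.pos
  have hi := inj_of_pos (by linarith) hpos
  have hC : ∀ z : U → ℝ, 0 ≤ z ⬝ᵥ C *ᵥ z := fun z =>
    (mul_nonneg (by linarith) (Finset.sum_nonneg fun u _ => sq_nonneg _)).trans (hpos z)
  have hv : ∀ (a : D → ℝ) (z : U → ℝ), Nm A C B G *ᵥ Sum.elim a z =
      Sum.elim (A *ᵥ a + Gᵀ *ᵥ (C *ᵥ (z + G *ᵥ a))) (C *ᵥ (z + G *ᵥ a)) := by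
    intro a z
    rw [Nm, g.dg, Matrix.fromBlocks_mulVec, Sum.elim_comp_inl, Sum.elim_comp_inr, ← g.sol]
    simp only [Matrix.add_mulVec, Matrix.mulVec_add, Matrix.mulVec_mulVec, ← Matrix.mul_assoc,
      ← g.left]
    congr 1 <;> abel
  refine ⟨?_, ?_, ?_, ?_⟩
  · exact Matrix.IsSymm.fromBlocks (hA.add (Matrix.isSymm_diagonal _)) rfl g.symm
  · intro q
    rw [← Sum.elim_comp_inl_inr q, hv, sumElim_dotProduct_sumElim, dotProduct_add,
      Matrix.dotProduct_mulVec _ Gᵀ, Matrix.vecMul_transpose]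
    have h1 := hp (q ∘ Sum.inl)
    have h2 := hC (q ∘ Sum.inr + G *ᵥ (q ∘ Sum.inl))
    rw [add_dotProduct] at h2
    linarith
  · intro Y y1 y2 y3
    have e : ∀ v u, Y (Sum.inr u) v = -∑ x, G u x * Y (Sum.inl x) v := by
      intro v u
      have h1 : Nm A C B G *ᵥ Sum.elim (fun x => Y (Sum.inl x) v) (fun u => Y (Sum.inr u) v) =
          0 := by
        funext i
        have := congrFun (congrFun y3 i) v
        rw [Matrix.mul_apply] at this
        simpa [Matrix.mulVec, dotProduct, Fintype.sum_sum_type] using this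
      rw [hv] at h1
      have h2 := congrFun (hi _ (funext fun u => congrFun h1 (Sum.inr u))) u
      exact eq_neg_of_add_eq_zero_left h2
    have h1 := g.ctrl (Matrix.of fun x y => Y (Sum.inl x) (Sum.inl y))
      (Matrix.IsSymm.ext fun a b => y1.apply _ _) (fun a => y2 _) fun u => by
        have := e (Sum.inr u) u
        rw [y2] at this
        rw [this, ← Finset.sum_neg_distrib]
        refine Finset.sum_congr rfl fun x _ => ?_
        rw [y1.apply, e, mul_neg, neg_neg, Finset.mul_sum]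
        refine Finset.sum_congr rfl fun y _ => ?_
        rw [Matrix.of_apply, y1.apply]
        ring
    have d1 : ∀ x y, Y (Sum.inl x) (Sum.inl y) = 0 := fun x y => congrFun (congrFun h1 x) y
    have d2 : ∀ u y, Y (Sum.inr u) (Sum.inl y) = 0 := fun u y => by simp [e, d1]
    have d3 : ∀ y u, Y (Sum.inl y) (Sum.inr u) = 0 := fun y u => by rw [y1.apply, d2]
    ext (x | x) (y | y)
    · exact d1 x y
    · exact d3 x y
    · exact d2 x y
    · simp [e, d3]
  · let φ : (D → ℝ) →ₗ[ℝ] (D ⊕ U → ℝ) :=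
      { toFun := fun a => Sum.elim a (-(G *ᵥ a))
        map_add' := fun a a' => by
          funext i
          rcases i with i | i <;> simp [Matrix.mulVec_add, add_comm]
        map_smul' := fun r a => by
          funext i
          rcases i with i | i <;> simp [Matrix.mulVec_smul] }
    have hφ : ∀ a ∈ LinearMap.ker (Matrix.toLin' A),
        φ a ∈ LinearMap.ker (Matrix.toLin' (Nm A C B G)) := by
      intro a ha
      rw [LinearMap.mem_ker, Matrix.toLin'_apply] at ha ⊢
      have : φ a = Sum.elim a (-(G *ᵥ a)) := rfl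
      rw [this, hv, ha]
      simp
    refine LinearMap.finrank_le_finrank_of_injective (f := φ.restrict hφ) ?_
    intro a a' h
    ext i
    exact congrFun (congrArg Subtype.val h) (Sum.inl i)

theorem EVN_pf : EVN_st := by
  intro U D _ _ _ _ _ A C B G l g hA h1 h2
  obtain ⟨c, hc, hpos⟩ := g.pos
  have hr : ∀ x, 0 ≤ (B * G) x x ∧ (B * G) x x ≤ ∑ u, B x u ^ 2 := by
    intro x
    have e1 : (fun u => G u x) ⬝ᵥ C *ᵥ (fun u => G u x) = (B * G) x x := by
      rw [Matrix.mul_apply]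
      refine Finset.sum_congr rfl fun u _ => ?_
      have : (C *ᵥ fun u => G u x) u = B x u := congrFun (congrFun g.sol u) x
      rw [this, mul_comm]
    have e2 := hpos fun u => G u x
    have e3 : 0 ≤ ∑ u, G u x ^ 2 := Finset.sum_nonneg fun u _ => sq_nonneg _
    have e4 : 2 * (B * G) x x ≤ ∑ u, B x u ^ 2 + ∑ u, G u x ^ 2 := by
      rw [Matrix.mul_apply, Finset.mul_sum, ← Finset.sum_add_distrib]
      exact Finset.sum_le_sum fun u _ => by nlinarith [sq_nonneg (B x u - G u x)]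
    rw [e1] at e2
    constructor <;> nlinarith
  have hv : ∀ (a : D → ℝ) (z : U → ℝ), Sum.elim a z ⬝ᵥ Np A C B G *ᵥ Sum.elim a z =
      a ⬝ᵥ A *ᵥ a + ∑ x, (B * G) x x * a x ^ 2 - 2 * ∑ u, (∑ x, |B x u| * a x) * z u +
        z ⬝ᵥ C *ᵥ z := by
    intro a z
    rw [Np, Matrix.fromBlocks_mulVec, Sum.elim_comp_inl, Sum.elim_comp_inr,
      sumElim_dotProduct_sumElim, dotProduct_add, dotProduct_add, Matrix.add_mulVec,
      dotProduct_add]
    have e1 : a ⬝ᵥ (diagonal fun x => (B * G) x x) *ᵥ a = ∑ x, (B * G) x x * a x ^ 2 :=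
      Finset.sum_congr rfl fun x _ => by
        rw [Matrix.mulVec_diagonal]
        ring
    have e2 : a ⬝ᵥ (Matrix.of fun x u => -|B x u|) *ᵥ z = -∑ u, (∑ x, |B x u| * a x) * z u := by
      simp only [dotProduct, Matrix.mulVec, Matrix.of_apply, Finset.mul_sum, Finset.sum_mul,
        ← Finset.sum_neg_distrib]
      rw [Finset.sum_comm]
      exact Finset.sum_congr rfl fun u _ => Finset.sum_congr rfl fun x _ => by ring
    have e3 : z ⬝ᵥ (Matrix.of fun u x => -|B x u|) *ᵥ a = -∑ u, (∑ x, |B x u| * a x) * z u := by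
      simp only [dotProduct, Matrix.mulVec, Matrix.of_apply, Finset.mul_sum, Finset.sum_mul,
        ← Finset.sum_neg_distrib]
      exact Finset.sum_congr rfl fun u _ => Finset.sum_congr rfl fun x _ => by ring
    rw [e1, e2, e3]
    ring
  refine ⟨?_, ?_, ?_⟩
  · exact Matrix.IsSymm.fromBlocks (hA.add (Matrix.isSymm_diagonal _)) rfl g.symm
  · intro p hp hne
    rw [← Sum.elim_comp_inl_inr p] at hp hne ⊢
    generalize p ∘ Sum.inl = a at *
    generalize p ∘ Sum.inr = z at *
    rw [sumElim_dotProduct_sumElim] at hp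
    have e0 : ∑ x, a x = 0 := by simpa [dotProduct] using hp
    have e1 := h1 a e0
    have e2 : 0 ≤ ∑ x, (B * G) x x * a x ^ 2 :=
      Finset.sum_nonneg fun x _ => mul_nonneg (hr x).1 (sq_nonneg _)
    have a0 : 0 ≤ ∑ x, a x ^ 2 := Finset.sum_nonneg fun u _ => sq_nonneg _
    have z0 : 0 ≤ ∑ u, z u ^ 2 := Finset.sum_nonneg fun u _ => sq_nonneg _
    have e3 : 2 * ∑ u, (∑ x, |B x u| * a x) * z u ≤
        (∑ u, ∑ x, B x u ^ 2) * ∑ x, a x ^ 2 + ∑ u, z u ^ 2 := by
      rw [Finset.mul_sum, Finset.sum_mul, ← Finset.sum_add_distrib]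
      refine Finset.sum_le_sum fun u _ => ?_
      have := Finset.sum_mul_sq_le_sq_mul_sq univ (fun x => |B x u|) a
      simp only [sq_abs] at this
      nlinarith [sq_nonneg (∑ x, |B x u| * a x - z u)]
    have e4 : (∑ u, ∑ x, B x u ^ 2) * ∑ x, a x ^ 2 ≤ 1 / 4 * ∑ x, a x ^ 2 := by
      rw [Finset.sum_comm]
      exact mul_le_mul_of_nonneg_right g.small a0
    have e5 := hpos z
    have e6 : 0 < ∑ x, a x ^ 2 ∨ 0 < ∑ u, z u ^ 2 := by
      by_contra h
      rw [not_or, not_lt, not_lt] at h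
      apply hne
      funext i
      rcases i with i | i
      · exact pow_eq_zero_iff two_ne_zero |>.1 ((Finset.sum_eq_zero_iff_of_nonneg
          fun u _ => sq_nonneg _).1 (le_antisymm h.1 a0) i (Finset.mem_univ i))
      · exact pow_eq_zero_iff two_ne_zero |>.1 ((Finset.sum_eq_zero_iff_of_nonneg
          fun u _ => sq_nonneg _).1 (le_antisymm h.2 z0) i (Finset.mem_univ i))
    rw [hv]
    rcases e6 with h | h
    · nlinarith [mul_nonneg (sub_pos.2 hc).le z0]
    · nlinarith [mul_pos (sub_pos.2 hc) h]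
  · rw [hv]
    have e1 : ∑ x, (B * G) x x * (1 : ℝ) ^ 2 ≤ 1 / 4 :=
      (Finset.sum_le_sum fun x _ => by simpa using (hr x).2).trans g.small
    have e2 : (1 : ℝ) ≤ Fintype.card D := by exact_mod_cast Fintype.card_pos
    have e3 : (fun _ : U => (0 : ℝ)) ⬝ᵥ C *ᵥ (fun _ : U => (0 : ℝ)) = 0 := by simp [dotProduct]
    have e4 : ∑ u, (∑ x, |B x u| * (1 : ℝ)) * (0 : ℝ) = 0 := by simp
    have e5 : -(Fintype.card D : ℝ) / 2 ≤ -1 / 2 := by linarith
    have e6 := h2.trans e5
    rw [e3, e4]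
    calc _ ≤ -1 / 2 + 1 / 4 - 2 * 0 + (0 : ℝ) := by gcongr
      _ < 0 := by norm_num

end Pool.Agent.MP_4f0ed6_gt.CdV

end

section

open Matrix Finset

namespace Pool.Agent.MP_4f0ed6_gt.CdV

/-- the base matrix -/
noncomputable def A0 {D T : Type} [DecidableEq D] [Fintype T] (Pm : T → Equiv.Perm (D × Bool))
    (θ : ℝ) : Matrix (D × Bool) (D × Bool) ℝ :=
  Matrix.of fun v w => ∑ t, (2 * (if w = v then 1 else 0) - (if w = Pm t v then 1 else 0) -
    if w = (Pm t).symm v then 1 else 0) - θ * (if w = v then 1 else 0) -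
      ((if w = v then 1 else 0) + if w = flp v then 1 else 0) / 4

theorem flp_flp {D : Type} (v : D × Bool) : flp (flp v) = v := by simp [flp]

theorem flp_inj {D : Type} {v w : D × Bool} : flp v = flp w ↔ v = w :=
  ⟨fun h => by rw [← flp_flp v, h, flp_flp], fun h => by rw [h]⟩

theorem A0_mulVec {D T : Type} [Fintype D] [DecidableEq D] [Fintype T]
    (Pm : T → Equiv.Perm (D × Bool)) (θ : ℝ) (u : D × Bool → ℝ) (v : D × Bool) :
    (A0 Pm θ *ᵥ u) v = Lap Pm u v - θ * u v - (u v + u (flp v)) / 4 := by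
  have h : ∀ x : D × Bool, ∑ w, (if w = x then (1 : ℝ) else 0) * u w = u x := fun x => by simp
  simp only [Matrix.mulVec, dotProduct, A0, Matrix.of_apply, Lap, sub_mul, Finset.sum_sub_distrib,
    Finset.sum_mul, div_mul_eq_mul_div, add_mul, ← Finset.sum_div, Finset.sum_add_distrib,
    mul_assoc, h]
  rw [Finset.sum_comm, Finset.sum_comm (f := fun w t => (if w = Pm t v then (1 : ℝ) else 0) * u w),
    Finset.sum_comm (f := fun w t => (if w = (Pm t).symm v then (1 : ℝ) else 0) * u w)]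
  simp only [← Finset.mul_sum, h]

theorem A0_symm {D T : Type} [DecidableEq D] [Fintype T] (Pm : T → Equiv.Perm (D × Bool)) (θ : ℝ)
    (v w : D × Bool) : A0 Pm θ v w = A0 Pm θ w v := by
  have h1 : ∀ t, w = Pm t v ↔ v = (Pm t).symm w := fun t => by
    rw [Equiv.eq_symm_apply, eq_comm]
  have h2 : ∀ t, w = (Pm t).symm v ↔ v = Pm t w := fun t => by
    rw [Equiv.eq_symm_apply, eq_comm]
  have h3 : w = flp v ↔ v = flp w :=
    ⟨fun h => by rw [h, flp_flp], fun h => by rw [h, flp_flp]⟩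
  have h4 : w = v ↔ v = w := eq_comm
  simp only [A0, Matrix.of_apply, h1, h2, h3, h4]
  congr 2
  exact Finset.sum_congr rfl fun t _ => by ring

theorem A0_flp {D T : Type} [DecidableEq D] [Fintype T] {Pm : T → Equiv.Perm (D × Bool)} (θ : ℝ)
    (h : ∀ t v, Pm t (flp v) = flp (Pm t v)) (v w : D × Bool) :
    A0 Pm θ (flp v) (flp w) = A0 Pm θ v w := by
  have h1 : ∀ t, (Pm t).symm (flp v) = flp ((Pm t).symm v) := fun t => by
    rw [Equiv.symm_apply_eq, h, Equiv.apply_symm_apply]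
  simp only [A0, Matrix.of_apply, h, h1, flp_inj]

theorem BAS_pf : BAS_st := by
  intro D T _ _ _ Pm θ k F g hF ho hL
  have f1 : ∀ x y, A0 Pm θ (x, false) (y, false) = A0 Pm θ (x, true) (y, true) := fun x y =>
    A0_flp θ g.comm (x, true) (y, true)
  have f2 : ∀ x y, A0 Pm θ (x, false) (y, true) = A0 Pm θ (x, true) (y, false) := fun x y =>
    A0_flp θ g.comm (x, true) (y, false)
  obtain ⟨Ap, hp⟩ : ∃ Ap : Matrix D D ℝ, Ap = Matrix.of fun x y =>
    A0 Pm θ (x, true) (y, true) + A0 Pm θ (x, true) (y, false) := ⟨_, rfl⟩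
  obtain ⟨Am, hm⟩ : ∃ Am : Matrix D D ℝ, Am = Matrix.of fun x y =>
    A0 Pm θ (x, true) (y, true) - A0 Pm θ (x, true) (y, false) := ⟨_, rfl⟩
  have hl : lift Ap Am = A0 Pm θ := by
    ext ⟨x, _ | _⟩ ⟨y, _ | _⟩ <;> simp only [lift, hp, hm, f1, f2, Matrix.of_apply, if_true,
      Bool.false_eq_true, Bool.true_eq_false, if_false] <;> ring
  have hf : ∀ u : D × Bool → ℝ, u ⬝ᵥ A0 Pm θ *ᵥ u = ∑ v, u v * Lap Pm u v - θ * ∑ v, u v ^ 2 -
      ∑ v, u v * (u v + u (flp v)) / 4 := by
    intro u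
    simp only [dotProduct, A0_mulVec, Finset.mul_sum, ← Finset.sum_sub_distrib]
    exact Finset.sum_congr rfl fun v _ => by ring
  have he : ∀ p : D → ℝ, 2 * (p ⬝ᵥ Ap *ᵥ p) = ∑ v : D × Bool, p v.1 * Lap Pm (fun v => p v.1) v -
      (2 * θ + 1) * ∑ x, p x ^ 2 := by
    intro p
    have h1 := lift_form Ap Am fun v => p v.1
    have e1 : (fun j => p j + p j) = (2 : ℝ) • p := by
      funext j
      simp [two_mul]
    have e2 : (fun j => p j - p j) = (0 : D → ℝ) := by
      funext j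
      simp
    have e3 : ∑ v : D × Bool, p v.1 ^ 2 = 2 * ∑ x, p x ^ 2 := by
      simp [Fintype.sum_prod_type, Finset.mul_sum]
    have e4 : ∑ v : D × Bool, p v.1 * (p v.1 + p (flp v).1) / 4 = ∑ x, p x ^ 2 := by
      simp only [Fintype.sum_prod_type, Fintype.sum_bool, flp]
      exact Finset.sum_congr rfl fun x _ => by ring
    rw [hl, hf, e3, e4] at h1
    simp only [e1, e2, Matrix.mulVec_smul, dotProduct_smul, smul_dotProduct, zero_dotProduct,
      smul_eq_mul] at h1
    linarith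
  refine ⟨Ap, Am, ?_, ?_, ?_, ?_, ?_, ?_, ?_, ?_⟩
  · refine Matrix.IsSymm.ext fun x y => ?_
    simp only [hp, Matrix.of_apply]
    rw [A0_symm Pm θ (y, true), A0_symm Pm θ (y, true), f2]
  · refine Matrix.IsSymm.ext fun x y => ?_
    simp only [hm, Matrix.of_apply]
    rw [A0_symm Pm θ (y, true), A0_symm Pm θ (y, true), f2]
  · intro q
    obtain ⟨u, hu⟩ : ∃ u : D × Bool → ℝ, u = fun v => if v.2 then q v.1 else -q v.1 := ⟨_, rfl⟩
    have h0 : ∀ v, u (flp v) = -u v := by
      rintro ⟨x, _ | _⟩ <;> simp [hu, flp]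
    have h1 := lift_form Ap Am u
    have e1 : (fun j => u (j, true) + u (j, false)) = 0 := by
      funext j
      simp [hu]
    have e2 : (fun j => u (j, true) - u (j, false)) = (2 : ℝ) • q := by
      funext j
      simp [hu, two_mul]
    have h2 := g.odd u h0
    rw [hl, hf, e1, e2] at h1
    simp only [h0, add_neg_cancel, mul_zero, zero_div, Finset.sum_const_zero, Matrix.mulVec_smul,
      dotProduct_smul, smul_dotProduct, zero_dotProduct, smul_eq_mul] at h1
    linarith
  · intro p h0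
    have h1 := he p
    have h2 := g.even (fun v => p v.1) fun v => rfl
    have e3 : ∑ v : D × Bool, p v.1 ^ 2 = 2 * ∑ x, p x ^ 2 := by
      simp [Fintype.sum_prod_type, Finset.mul_sum]
    have e4 : ∑ v : D × Bool, p v.1 = 0 := by
      simp [Fintype.sum_prod_type, ← Finset.mul_sum, h0]
    rw [e3, e4] at h2
    simp only [ne_eq, OfNat.ofNat_ne_zero, not_false_eq_true, zero_pow, zero_div, sub_zero] at h2
    linarith
  · have h1 := he fun _ => 1
    have e1 : ∑ v : D × Bool, (1 : ℝ) * Lap Pm (fun _ => (1 : ℝ)) v = 0 := by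
      refine Finset.sum_eq_zero fun v _ => ?_
      rw [Lap, Finset.sum_eq_zero fun t _ => by norm_num, mul_zero]
    have e2 : ∑ _x : D, (1 : ℝ) ^ 2 = Fintype.card D := by simp
    rw [e1, e2] at h1
    have := mul_nonneg g.θ_nonneg (Nat.cast_nonneg (α := ℝ) (Fintype.card D))
    linarith
  · have h1 : ∀ i x, F i (x, false) = -F i (x, true) := fun i x => ho i (x, true)
    have h2 : ∀ i, (fun x => F i (x, true)) ∈ LinearMap.ker (Matrix.toLin' Am) := by
      intro i
      rw [LinearMap.mem_ker, Matrix.toLin'_apply]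
      funext x
      have a1 := lift_mulVec Ap Am (F i) x true
      have e1 : (fun j => F i (j, true) + F i (j, false)) = 0 := by
        funext j
        simp [h1]
      have e2 : (fun j => F i (j, true) - F i (j, false)) = (2 : ℝ) • fun x => F i (x, true) := by
        funext j
        simp [h1, two_mul]
      rw [hl, A0_mulVec, hL, ho, e1, e2, Matrix.mulVec_smul] at a1
      simpa using a1.symm
    have h3 : LinearIndependent ℝ fun i =>
        (⟨fun x => F i (x, true), h2 i⟩ : LinearMap.ker (Matrix.toLin' Am)) := by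
      rw [Fintype.linearIndependent_iff] at hF ⊢
      intro c hc
      refine hF c ?_
      have h4 : ∀ x, ∑ i, c i * F i (x, true) = 0 := fun x => by
        simpa using congrFun (congrArg Subtype.val hc) x
      funext ⟨x, s⟩
      cases s
      · simp [h1, h4]
      · simp [h4]
    simpa using h3.fintype_card_le_finrank
  · intro v w h
    rw [hl]
    simp only [A0, Matrix.of_apply, if_neg h.symm]
    rw [mul_zero θ, sub_zero]
    exact sub_nonpos.2 (le_trans (Finset.sum_nonpos fun t _ => by split_ifs <;> norm_num)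
      (by split_ifs <;> norm_num))
  · refine ⟨univ.image fun p : T × (D × Bool) => s(p.2, Pm p.1 p.2),
      Finset.card_image_le.trans (by simp [mul_comm]), fun v w h h1 => ?_⟩
    by_contra h2
    rw [not_or] at h2
    apply h1
    rw [hl]
    simp only [A0, Matrix.of_apply, if_neg h.symm, if_neg h2.1]
    rw [Finset.sum_eq_zero]
    · norm_num
    · intro t _
      rw [if_neg, if_neg]
      · norm_num
      · intro h3
        refine h2.2 (Finset.mem_image.2 ⟨(t, w), Finset.mem_univ _, ?_⟩)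
        simp [h3]
      · intro h3
        exact h2.2 (Finset.mem_image.2 ⟨(t, v), Finset.mem_univ _, by rw [h3]⟩)

end Pool.Agent.MP_4f0ed6_gt.CdV

end

section

open Matrix Finset

namespace Pool.Agent.MP_4f0ed6_gt.CdV

theorem lat_flp (D : Type) [Fintype D] : Lat fun v w : D × Bool => w = flp v := by
  refine ⟨fun v => ((Fintype.equivFin D v.1 : ℕ), if v.2 then 1 else 0), ?_, ?_⟩
  · rintro ⟨x, s⟩ ⟨y, s'⟩ h
    obtain ⟨h1, h2⟩ := Prod.mk.inj h
    have h3 : x = y := (Fintype.equivFin D).injective (Fin.ext (by exact_mod_cast h1))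
    cases s <;> cases s' <;> simp_all
  · rintro ⟨x, _ | _⟩ _ rfl <;> simp [flp]

/-- splitting the two sheets -/
def spl {D U : Type} (v : (D ⊕ U) × Bool) : (D × Bool) ⊕ (U ⊕ U) :=
  Sum.elim (fun x => Sum.inl (x, v.2))
    (fun u => Sum.inr (if v.2 then Sum.inl u else Sum.inr u)) v.1

theorem spl_inj {D U : Type} : Function.Injective (spl (D := D) (U := U)) := by
  rintro ⟨x | x, _ | _⟩ ⟨y | y, _ | _⟩ h <;> simp_all [spl]

theorem FIN_pf : FIN_st := by
  rintro D _ _ _ Ap Am k E l b ⟨U, _, _, C, B, G, g⟩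
  obtain ⟨o1, o2, o3, o4⟩ := ODD_pf U D Am C B G _ l g b.symm b.psd
  obtain ⟨e1, e2, e3⟩ := EVN_pf U D Ap C B G l g b.symp b.gap b.neg
  obtain ⟨hM, l1, l2, l3⟩ := LIF_pf _ _ _ _ _ e1 o1 o2 e2 e3 o3
  have hs := lift_symm e1 o1
  obtain ⟨S0, s1, s2⟩ := b.edges
  obtain ⟨S1, t1, t2⟩ := g.legs
  have m1 : ∀ x s y s', (x, s) ≠ (y, s') → lift (Np Ap C B G) (Nm Am C B G) (Sum.inl x, s)
      (Sum.inl y, s') = lift Ap Am (x, s) (y, s') := by
    intro x s y s' h
    simp only [lift, Np, Nm, Matrix.of_apply, Matrix.fromBlocks_apply₁₁, Matrix.add_apply]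
    by_cases hxy : x = y
    · rw [if_neg fun e => h (Prod.ext hxy e)]
      ring
    · rw [Matrix.diagonal_apply_ne _ hxy]
      ring
  have m2 : ∀ x s u s', lift (Np Ap C B G) (Nm Am C B G) (Sum.inl x, s) (Sum.inr u, s') =
      (-|B x u| + (if s = s' then 1 else -1) * B x u) / 2 := fun _ _ _ _ => rfl
  have m4 : ∀ u s v s', lift (Np Ap C B G) (Nm Am C B G) (Sum.inr u, s) (Sum.inr v, s') =
      if s = s' then C u v else 0 := by
    intro u s v s'
    simp only [lift, Np, Nm, Matrix.of_apply, Matrix.fromBlocks_apply₂₂]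
    split_ifs <;> ring
  generalize lift (Np Ap C B G) (Nm Am C B G) = M at *
  have m3 : ∀ x s u s', M (Sum.inl x, s) (Sum.inr u, s') ≤ 0 := by
    intro x s u s'
    rw [m2]
    split_ifs <;> linarith [le_abs_self (B x u), neg_abs_le (B x u)]
  have off : ∀ v w, v ≠ w → M v w ≤ 0 := by
    rintro ⟨x | x, s⟩ ⟨y | y, s'⟩ h
    · have h' : (x, s) ≠ (y, s') := fun e => h (by rw [(Prod.mk.inj e).1, (Prod.mk.inj e).2])
      rw [m1 _ _ _ _ h']
      exact b.off _ _ h'
    · exact m3 _ _ _ _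
    · rw [hs.apply]
      exact m3 _ _ _ _
    · rw [m4]
      split_ifs with e
      · exact g.off _ _ fun e' => h (by rw [e, e'])
      · exact le_rfl
  have adj : ∀ v w, (SimpleGraph.fromRel fun v w => M v w ≠ 0).Adj v w ↔ v ≠ w ∧ M v w ≠ 0 := by
    intro v w
    rw [SimpleGraph.fromRel_adj, hs.apply v w, or_self]
  obtain ⟨S, hS⟩ : ∃ S : Finset (Sym2 ((D ⊕ U) × Bool)), S =
    S0.image (Sym2.map fun v => (Sum.inl v.1, v.2)) ∪ (S1 ×ˢ (univ : Finset Bool)).image fun p =>
      s((Sum.inl p.1.1, p.2), (Sum.inr p.1.2, if B p.1.1 p.1.2 < 0 then p.2 else !p.2)) :=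
    ⟨_, rfl⟩
  have leg : ∀ x s u s', M (Sum.inl x, s) (Sum.inr u, s') ≠ 0 →
      s((Sum.inl x, s), (Sum.inr u, s')) ∈ S := by
    intro x s u s' h
    rw [m2] at h
    have h0 : B x u ≠ 0 := fun e => h (by simp [e])
    rw [hS]
    refine Finset.mem_union_right _ (Finset.mem_image.2 ⟨((x, u), s),
      Finset.mem_product.2 ⟨t2 x u h0, Finset.mem_univ _⟩, ?_⟩)
    have : (if B x u < 0 then s else !s) = s' := by
      split_ifs with e
      · by_contra e'
        rw [if_neg e', abs_of_neg e] at h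
        exact h (by ring)
      · by_contra e'
        have : s = s' := by
          revert e'
          cases s <;> cases s' <;> simp
        rw [if_pos this, abs_of_nonneg (not_lt.1 e)] at h
        exact h (by ring)
    simp only [this]
  have lat : Lat fun v w => (v ≠ w ∧ M v w ≠ 0) ∧ s(v, w) ∉ S := by
    refine ((lat_flp D).sum (g.lat.sum g.lat)).comap spl spl_inj ?_
    · rintro ⟨x | x, s⟩ ⟨y | y, s'⟩ ⟨⟨h, h1⟩, h2⟩
      · have h' : (x, s) ≠ (y, s') := fun e => h (by rw [(Prod.mk.inj e).1, (Prod.mk.inj e).2])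
        rw [m1 _ _ _ _ h'] at h1
        rcases s2 _ _ h' h1 with h3 | h3
        · exact Sum.LiftRel.inl h3
        · exact absurd (hS ▸ Finset.mem_union_left _ (Finset.mem_image.2 ⟨_, h3, rfl⟩)) h2
      · exact absurd (leg _ _ _ _ h1) h2
      · rw [hs.apply] at h1
        rw [Sym2.eq_swap] at h2
        exact absurd (leg _ _ _ _ h1) h2
      · rw [m4] at h1
        by_cases e : s = s'
        · subst e
          rw [if_pos rfl] at h1
          have h3 : Pat C x y := ⟨fun e' => h (by rw [e']), h1⟩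
          cases s
          · exact Sum.LiftRel.inr (Sum.LiftRel.inr h3)
          · exact Sum.LiftRel.inr (Sum.LiftRel.inl h3)
        · exact absurd (if_neg e) h1
  obtain ⟨pos, p1, p2⟩ := lat
  refine ⟨(D ⊕ U) × Bool, inferInstance, inferInstance,
    SimpleGraph.fromRel fun v w => M v w ≠ 0, pos, S, M, hM, p1, ?_,
    fun u v h h' => p2 u v ⟨(adj u v).1 h, h'⟩,
    fun u v h => lt_of_le_of_ne (off u v ((adj u v).1 h).1) ((adj u v).1 h).2,
    fun u v h h' => ?_, l1, fun X x1 x2 x3 => l2 X x1 (fun v => x2 v v (Or.inl rfl)) x3,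
    b.ker.trans (o4.trans l3)⟩
  · rw [hS]
    refine (Finset.card_union_le _ _).trans (add_le_add (Finset.card_image_le.trans s1)
      (Finset.card_image_le.trans ?_))
    rw [Finset.card_product, Finset.card_univ, Fintype.card_bool]
    omega
  · by_contra e
    exact h' ((adj u v).2 ⟨h, e⟩)

end Pool.Agent.MP_4f0ed6_gt.CdV

end

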