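import Pool.Agent.MP_4f0ed6_gt.CdV.Base

section

open Set Laplacian Filter Topology MeasureTheory Metric InnerProductSpace
open scoped ContDiff

namespace Pool.Agent.MP_4f0ed6_gt.CdV

/-- the real character attached to a functional -/
noncomputable def chr {G : Type} [AddCommGroup G] [Module (ZMod 2) G] (f : Module.Dual (ZMod 2) G)
    (x : G) : ℝ := if f x = 0 then 1 else -1

variable {G T : Type} [AddCommGroup G] [Module (ZMod 2) G] [Fintype G] [Fintype T]

/-- the eigenvalue of the character -/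
noncomputable def eig (γ : T → G) (f : Module.Dual (ZMod 2) G) : ℝ :=
  ∑ t, if f (γ t) = 0 then 0 else 4

theorem RS1_sgn (a b : ZMod 2) : (if a + b = 0 then (1 : ℝ) else -1) =
    (if a = 0 then (1 : ℝ) else -1) * (if b = 0 then (1 : ℝ) else -1) := by
  have h : ∀ c : ZMod 2, c = 0 ∨ c = 1 := by decide
  have h11 : (1 : ZMod 2) + 1 = 0 := by decide
  have h10 : (1 : ZMod 2) ≠ 0 := by decide
  rcases h a with rfl | rfl <;> rcases h b with rfl | rfl <;> simp [h11, h10]

omit [Fintype G] in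
theorem RS1_add (f : Module.Dual (ZMod 2) G) (x y : G) : chr f (x + y) = chr f x * chr f y := by
  unfold chr
  rw [map_add, RS1_sgn]

omit [Fintype G] in
theorem RS1_add' (f g : Module.Dual (ZMod 2) G) (x : G) : chr (f + g) x = chr f x * chr g x := by
  unfold chr
  rw [LinearMap.add_apply, RS1_sgn]

omit [Fintype G] in
theorem RS1_self (y : G) : y + y = 0 := by
  have h : (2 : ZMod 2) = 0 := by decide
  rw [← two_smul (ZMod 2) y, h, zero_smul]

omit [Fintype G] in
theorem RS1_symm (y v : G) : (Equiv.addRight y).symm v = v + y := by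
  have : -y = y := neg_eq_of_add_eq_zero_left (RS1_self y)
  simp [this]

omit [Fintype G] in
theorem RS1_zero (x : G) : chr (0 : Module.Dual (ZMod 2) G) x = 1 := by simp [chr]

omit [Fintype G] in
theorem RS1_zero' (f : Module.Dual (ZMod 2) G) : chr f 0 = 1 := by simp [chr]

theorem RS1_shift (w : G → ℝ) (y : G) : ∑ x, w (x + y) = ∑ x, w x :=
  Fintype.sum_equiv (Equiv.addRight y) _ _ fun _ => rfl

theorem RS1_sum_x {f : Module.Dual (ZMod 2) G} (hf : f ≠ 0) : ∑ x, chr f x = 0 := by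
  obtain ⟨y, hy⟩ : ∃ y, f y ≠ 0 := by
    by_contra h
    push Not at h
    exact hf (LinearMap.ext h)
  have h1 := RS1_shift (chr f) y
  have h2 : chr f y = -1 := by simp [chr, hy]
  simp only [RS1_add, h2, mul_neg, mul_one, Finset.sum_neg_distrib] at h1
  linarith

omit [Fintype G] in
theorem RS1_sum_f [Fintype (Module.Dual (ZMod 2) G)] {x : G} (hx : x ≠ 0) :
    ∑ f : Module.Dual (ZMod 2) G, chr f x = 0 := by
  haveI : Fact (Nat.Prime 2) := ⟨Nat.prime_two⟩
  obtain ⟨g, hg⟩ : ∃ g : Module.Dual (ZMod 2) G, g x ≠ 0 := by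
    by_contra h
    push Not at h
    exact hx ((Module.forall_dual_apply_eq_zero_iff (ZMod 2) x).1 h)
  have h1 : ∑ f : Module.Dual (ZMod 2) G, chr (f + g) x = ∑ f : Module.Dual (ZMod 2) G, chr f x :=
    Fintype.sum_equiv (Equiv.addRight g) _ _ fun _ => rfl
  have h2 : chr g x = -1 := by simp [chr, hg]
  simp only [RS1_add', h2, mul_neg, mul_one, Finset.sum_neg_distrib] at h1
  linarith

theorem RS1_card [Fintype (Module.Dual (ZMod 2) G)] :
    (Fintype.card (Module.Dual (ZMod 2) G) : ℝ) = Fintype.card G := by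
  classical
  have h1 : ∑ f : Module.Dual (ZMod 2) G, ∑ x, chr f x = Fintype.card G := by
    rw [Finset.sum_eq_single (0 : Module.Dual (ZMod 2) G)]
    · simp [RS1_zero]
    · intro f _ hf
      exact RS1_sum_x hf
    · simp
  have h2 : ∑ x : G, ∑ f : Module.Dual (ZMod 2) G, chr f x =
      Fintype.card (Module.Dual (ZMod 2) G) := by
    rw [Finset.sum_eq_single (0 : G)]
    · simp [RS1_zero']
    · intro x _ hx
      exact RS1_sum_f hx
    · simp
  rw [← h1, ← h2, Finset.sum_comm]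

/-- the transform -/
noncomputable def RS1_ft (u : G → ℝ) (f : Module.Dual (ZMod 2) G) : ℝ := ∑ x, u x * chr f x

theorem RS1_parseval [Fintype (Module.Dual (ZMod 2) G)] (u w : G → ℝ) :
    ∑ f : Module.Dual (ZMod 2) G, RS1_ft u f * RS1_ft w f =
      Fintype.card G * ∑ x, u x * w x := by
  classical
  have h1 : ∀ f : Module.Dual (ZMod 2) G, RS1_ft u f * RS1_ft w f =
      ∑ x, ∑ y, u x * w y * chr f (x + y) := by
    intro f
    unfold RS1_ft
    rw [Finset.sum_mul_sum]
    refine Finset.sum_congr rfl fun x _ => Finset.sum_congr rfl fun y _ => ?_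
    rw [RS1_add]; ring
  simp only [h1]
  rw [Finset.sum_comm, Finset.mul_sum]
  refine Finset.sum_congr rfl fun x _ => ?_
  rw [Finset.sum_comm, Finset.sum_eq_single x]
  · rw [RS1_self, ← Finset.mul_sum]
    simp only [RS1_zero', Finset.sum_const, Finset.card_univ, nsmul_eq_mul, mul_one]
    rw [RS1_card]; ring
  · intro y _ hy
    have : x + y ≠ 0 := fun h => hy (by
      have h2 : x + y + y = 0 + y := by rw [h]
      rw [add_assoc, RS1_self, add_zero, zero_add] at h2
      exact h2.symm)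
    rw [← Finset.mul_sum, RS1_sum_f this, mul_zero]
  · simp

omit [Fintype G] in
theorem RS1_lap (γ : T → G) (u : G → ℝ) (x : G) :
    Lap (fun t => Equiv.addRight (γ t)) u x = ∑ t, (2 * u x - 2 * u (x + γ t)) := by
  unfold Lap
  refine Finset.sum_congr rfl fun t _ => ?_
  rw [RS1_symm, Equiv.coe_addRight]
  ring

theorem RS1_ft_shift (u : G → ℝ) (y : G) (f : Module.Dual (ZMod 2) G) :
    ∑ x, u (x + y) * chr f x = chr f y * RS1_ft u f := by
  unfold RS1_ft
  rw [← RS1_shift (fun x => u (x + y) * chr f x) y, Finset.mul_sum]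
  refine Finset.sum_congr rfl fun x _ => ?_
  rw [add_assoc, RS1_self, add_zero, RS1_add]; ring

theorem RS1_ft_lap (γ : T → G) (u : G → ℝ) (f : Module.Dual (ZMod 2) G) :
    RS1_ft (Lap (fun t => Equiv.addRight (γ t)) u) f = eig γ f * RS1_ft u f := by
  have h1 : RS1_ft (Lap (fun t => Equiv.addRight (γ t)) u) f =
      ∑ x, ∑ t, (2 * (u x * chr f x) - 2 * (u (x + γ t) * chr f x)) := by
    unfold RS1_ft
    refine Finset.sum_congr rfl fun x _ => ?_
    rw [RS1_lap, Finset.sum_mul]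
    refine Finset.sum_congr rfl fun t _ => by ring
  rw [h1, Finset.sum_comm, eig, Finset.sum_mul]
  refine Finset.sum_congr rfl fun t _ => ?_
  rw [Finset.sum_sub_distrib, ← Finset.mul_sum, ← Finset.mul_sum, RS1_ft_shift]
  change 2 * RS1_ft u f - _ = _
  unfold chr
  split_ifs <;> ring

theorem lap_chr (γ : T → G) (f : Module.Dual (ZMod 2) G) (x : G) :
    Lap (fun t => Equiv.addRight (γ t)) (chr f) x = eig γ f * chr f x := by
  rw [RS1_lap, eig, Finset.sum_mul]
  refine Finset.sum_congr rfl fun t _ => ?_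
  rw [RS1_add]
  have : chr f (γ t) = if f (γ t) = 0 then 1 else -1 := rfl
  rw [this]
  split_ifs <;> ring

theorem chr_indep : LinearIndependent ℝ fun f : Module.Dual (ZMod 2) G => chr f := by
  classical
  rw [linearIndependent_iff']
  intro s c hc g hg
  have h1 : ∑ x, (∑ f ∈ s, c f • chr f) x * chr g x = 0 := by rw [hc]; simp
  have h2 : ∑ x, (∑ f ∈ s, c f • chr f) x * chr g x = ∑ f ∈ s, c f * ∑ x, chr (f + g) x := by
    simp only [Finset.sum_apply, Pi.smul_apply, smul_eq_mul, Finset.sum_mul, Finset.mul_sum]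
    rw [Finset.sum_comm]
    refine Finset.sum_congr rfl fun f _ => Finset.sum_congr rfl fun x _ => ?_
    rw [RS1_add']; ring
  have hgg : g + g = 0 := RS1_self g
  rw [h2, Finset.sum_eq_single g] at h1
  · rw [hgg] at h1
    simp only [RS1_zero, Finset.sum_const, Finset.card_univ, nsmul_eq_mul, mul_one] at h1
    have : (Fintype.card G : ℝ) ≠ 0 := by exact_mod_cast Fintype.card_ne_zero
    exact (mul_eq_zero.1 h1).resolve_right this
  · intro f _ hf
    have : f + g ≠ 0 := fun h => hf (by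
      have h2 : f + g + g = 0 + g := by rw [h]
      rwa [add_assoc, hgg, add_zero, zero_add] at h2)
    rw [RS1_sum_x this, mul_zero]
  · intro h
    exact absurd hg h

theorem lap_odd (γ : T → G) (z : G) {θ : ℝ} (h : ∀ f, f z ≠ 0 → θ ≤ eig γ f) (u : G → ℝ)
    (hu : ∀ x, u (x + z) = -u x) :
    θ * ∑ x, u x ^ 2 ≤ ∑ x, u x * Lap (fun t => Equiv.addRight (γ t)) u x := by
  haveI : Finite (Module.Dual (ZMod 2) G) := DFunLike.finite _
  haveI : Fintype (Module.Dual (ZMod 2) G) := Fintype.ofFinite _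
  have hn : (0 : ℝ) < Fintype.card G := by exact_mod_cast Fintype.card_pos
  have h1 := RS1_parseval u u
  have h2 := RS1_parseval u (Lap (fun t => Equiv.addRight (γ t)) u)
  refine le_of_mul_le_mul_left ?_ hn
  simp only [sq]
  rw [← h2, mul_left_comm, ← h1, Finset.mul_sum]
  refine Finset.sum_le_sum fun f _ => ?_
  rw [RS1_ft_lap]
  by_cases hf : f z = 0
  · have h3 := RS1_ft_shift u z f
    have h4 : chr f z = 1 := by simp [chr, hf]
    simp only [hu, h4, neg_mul, Finset.sum_neg_distrib, one_mul] at h3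
    have h5 : RS1_ft u f = 0 := by
      change -RS1_ft u f = _ at h3
      linarith
    simp [h5]
  · have := h f hf
    nlinarith [mul_self_nonneg (RS1_ft u f)]

theorem lap_even (γ : T → G) (z : G) {θ : ℝ} (h : ∀ f, f ≠ 0 → f z = 0 → θ ≤ eig γ f)
    (u : G → ℝ) (hu : ∀ x, u (x + z) = u x) :
    θ * (∑ x, u x ^ 2 - (∑ x, u x) ^ 2 / Fintype.card G) ≤
      ∑ x, u x * Lap (fun t => Equiv.addRight (γ t)) u x := by
  classical
  haveI : Finite (Module.Dual (ZMod 2) G) := DFunLike.finite _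
  haveI : Fintype (Module.Dual (ZMod 2) G) := Fintype.ofFinite _
  have hn : (0 : ℝ) < Fintype.card G := by exact_mod_cast Fintype.card_pos
  have h1 := RS1_parseval u u
  have h2 := RS1_parseval u (Lap (fun t => Equiv.addRight (γ t)) u)
  have h0 : RS1_ft u 0 = ∑ x, u x := by simp [RS1_ft, RS1_zero]
  have he : eig γ 0 = 0 := by simp [eig]
  refine le_of_mul_le_mul_left ?_ hn
  have h3 : (Fintype.card G : ℝ) * (θ * (∑ x, u x ^ 2 - (∑ x, u x) ^ 2 / Fintype.card G)) =
      ∑ f ∈ Finset.univ.erase (0 : Module.Dual (ZMod 2) G), θ * (RS1_ft u f * RS1_ft u f) := by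
    rw [← Finset.mul_sum, Finset.sum_erase_eq_sub (Finset.mem_univ _), h1, h0]
    simp only [sq]
    field_simp
  rw [h3, ← h2, ← Finset.add_sum_erase _ _ (Finset.mem_univ (0 : Module.Dual (ZMod 2) G)),
    RS1_ft_lap, he, zero_mul, mul_zero, zero_add]
  refine Finset.sum_le_sum fun f hf0 => ?_
  rw [RS1_ft_lap]
  by_cases hf : f z = 0
  · have := h f (Finset.ne_of_mem_erase hf0) hf
    nlinarith [mul_self_nonneg (RS1_ft u f)]
  · have h3 := RS1_ft_shift u z f
    have h4 : chr f z = -1 := by simp [chr, hf]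
    simp only [hu, h4, neg_mul, one_mul] at h3
    have h5 : RS1_ft u f = 0 := by
      change RS1_ft u f = _ at h3
      linarith
    simp [h5]

end Pool.Agent.MP_4f0ed6_gt.CdV

end

section

open Set Laplacian Filter Topology MeasureTheory Metric InnerProductSpace
open scoped ContDiff

namespace Pool.Agent.MP_4f0ed6_gt.CdV

section RS2aux

variable {F : Type} [Field F] [Algebra (ZMod 2) F] [Fintype F]

/-- evaluation of the polynomial with coefficient vector `g` at `x` -/
noncomputable def RS2ev (m : ℕ) (x : F) : (Fin m → F) →ₗ[ZMod 2] F where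
  toFun g := ∑ i, g i * x ^ (i : ℕ)
  map_add' g h := by simp [add_mul, Finset.sum_add_distrib]
  map_smul' c g := by simp [Finset.smul_sum]

/-- the generators -/
noncomputable def RS2gam (m : ℕ) (t : F × {l : Module.Dual (ZMod 2) F // l ≠ 0}) :
    Module.Dual (ZMod 2) (Fin m → F) × ZMod 2 :=
  (t.2.1 ∘ₗ RS2ev m t.1, t.2.1 (t.1 ^ m))

/-- the functional attached to a coefficient vector and a leading coefficient -/
noncomputable def RS2fun (m : ℕ) (g : Fin m → F) (c : ZMod 2) :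
    Module.Dual (ZMod 2) (Module.Dual (ZMod 2) (Fin m → F) × ZMod 2) where
  toFun p := p.1 g + p.2 * c
  map_add' p p' := by simp [add_mul]; ring
  map_smul' a p := by simp [mul_add, mul_assoc]

omit [Fintype F] in
lemma RS2fun_apply (m : ℕ) (g : Fin m → F) (c : ZMod 2)
    (p : Module.Dual (ZMod 2) (Fin m → F) × ZMod 2) : RS2fun m g c p = p.1 g + p.2 * c := rfl

lemma RS2_exists (m : ℕ) (f : Module.Dual (ZMod 2) (Module.Dual (ZMod 2) (Fin m → F) × ZMod 2)) :
    ∃ g : Fin m → F, f = RS2fun m g (f (0, 1)) := by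
  have : Module.Finite (ZMod 2) F := Module.Finite.of_finite
  obtain ⟨g, hg⟩ := (Module.evalEquiv (ZMod 2) (Fin m → F)).surjective
    (f ∘ₗ LinearMap.inl (ZMod 2) _ _)
  refine ⟨g, ?_⟩
  apply LinearMap.ext
  rintro ⟨ξ, a⟩
  have h1 : ξ g = f (ξ, 0) := by
    have := congrArg (fun φ => φ ξ) hg
    simpa using this
  have h2 : ((ξ, a) : Module.Dual (ZMod 2) (Fin m → F) × ZMod 2) = (ξ, 0) + a • (0, 1) := by
    simp
  rw [RS2fun_apply, h2, map_add, map_smul]
  simp [h1]

omit [Fintype F] in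
lemma RS2fun_gam (m : ℕ) (g : Fin m → F) (c : ZMod 2)
    (t : F × {l : Module.Dual (ZMod 2) F // l ≠ 0}) :
    RS2fun m g c (RS2gam m t) = t.2.1 (RS2ev m t.1 g + c • t.1 ^ m) := by
  rw [RS2fun_apply, map_add, map_smul]
  simp [RS2gam, mul_comm]

lemma RS2_card_dual [Fintype (Module.Dual (ZMod 2) F)] :
    Fintype.card (Module.Dual (ZMod 2) F) = Fintype.card F := by
  have : Module.Finite (ZMod 2) F := Module.Finite.of_finite
  rw [Module.card_eq_pow_finrank (K := ZMod 2) (V := Module.Dual (ZMod 2) F),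
    Module.card_eq_pow_finrank (K := ZMod 2) (V := F), Subspace.dual_finrank_eq]

open Classical in
lemma RS2_sum_l [Fintype {l : Module.Dual (ZMod 2) F // l ≠ 0}] (y : F) :
    (∑ l : {l : Module.Dual (ZMod 2) F // l ≠ 0}, if l.1 y = 0 then (0 : ℝ) else 4) =
      if y = 0 then 0 else 2 * (Fintype.card F : ℝ) := by
  have : Module.Finite (ZMod 2) F := Module.Finite.of_finite
  have : Finite (Module.Dual (ZMod 2) F) := Module.finite_of_finite (ZMod 2)
  let : Fintype (Module.Dual (ZMod 2) F) := Fintype.ofFinite _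
  split_ifs with hy
  · simp [hy]
  have hall : (∑ l : {l : Module.Dual (ZMod 2) F // l ≠ 0}, if l.1 y = 0 then (0 : ℝ) else 4) =
      ∑ l : Module.Dual (ZMod 2) F, if l y = 0 then (0 : ℝ) else 4 := by
    rw [← Finset.sum_subtype (Finset.univ.filter fun l : Module.Dual (ZMod 2) F => l ≠ 0)
      (by simp) (fun l : Module.Dual (ZMod 2) F => if l y = 0 then (0 : ℝ) else 4)]
    rw [Finset.sum_filter]
    refine Finset.sum_congr rfl fun l _ => ?_
    by_cases hl : l = 0
    · simp [hl]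
    · simp [hl]
  rw [hall]
  obtain ⟨l0, hl0⟩ : ∃ l0 : Module.Dual (ZMod 2) F, l0 y ≠ 0 := by
    by_contra hcon
    push Not at hcon
    exact hy ((Module.forall_dual_apply_eq_zero_iff (ZMod 2) y).1 hcon)
  have hsw : (∑ l : Module.Dual (ZMod 2) F, if l y = 0 then (0 : ℝ) else 4) =
      ∑ l : Module.Dual (ZMod 2) F, if (l + l0) y = 0 then (0 : ℝ) else 4 :=
    (Equiv.sum_comp (Equiv.addRight l0)
      (fun l : Module.Dual (ZMod 2) F => if l y = 0 then (0 : ℝ) else 4)).symm
  have hsum : (∑ l : Module.Dual (ZMod 2) F, if l y = 0 then (0 : ℝ) else 4) +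
      (∑ l : Module.Dual (ZMod 2) F, if (l + l0) y = 0 then (0 : ℝ) else 4) =
      4 * (Fintype.card F : ℝ) := by
    rw [← Finset.sum_add_distrib, ← RS2_card_dual]
    rw [Finset.sum_congr rfl (g := fun _ => (4 : ℝ))]
    · simp [mul_comm]
    · intro l _
      rw [LinearMap.add_apply]
      have h01 : ∀ a b : ZMod 2, b ≠ 0 → (a = 0 ↔ ¬ (a + b = 0)) := by decide
      by_cases h : l y = 0
      · have := (h01 _ _ hl0).1 h
        rw [if_pos h, if_neg this]; norm_num
      · have : l y + l0 y = 0 := by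
          by_contra h'
          exact h ((h01 _ _ hl0).2 h')
        rw [if_neg h, if_pos this]; norm_num
  linarith

open Classical in
lemma RS2_eig (m : ℕ) [Fintype {l : Module.Dual (ZMod 2) F // l ≠ 0}] (g : Fin m → F) (c : ZMod 2) :
    eig (RS2gam (F := F) m) (RS2fun m g c) = 2 * (Fintype.card F : ℝ) *
      ((Fintype.card F : ℝ) -
        (Finset.univ.filter fun x : F => RS2ev m x g + c • x ^ m = 0).card) := by
  unfold eig
  rw [Fintype.sum_prod_type]
  simp_rw [RS2fun_gam]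
  simp_rw [RS2_sum_l]
  rw [Finset.sum_ite, Finset.sum_const_zero, zero_add, Finset.sum_const, nsmul_eq_mul]
  have := Finset.card_filter_add_card_filter_not (s := (Finset.univ : Finset F))
    (fun x : F => RS2ev m x g + c • x ^ m = 0)
  rw [Finset.card_univ] at this
  rw [← this]
  push_cast
  ring

/-- the polynomial with coefficient vector `g` -/
noncomputable def RS2pol (m : ℕ) (g : Fin m → F) : Polynomial F :=
  ∑ i : Fin m, Polynomial.C (g i) * Polynomial.X ^ (i : ℕ)

omit [Fintype F] in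
lemma RS2pol_eval (m : ℕ) (g : Fin m → F) (x : F) : (RS2pol m g).eval x = RS2ev m x g := by
  simp [RS2pol, RS2ev, Polynomial.eval_finsetSum]

omit [Fintype F] [Algebra (ZMod 2) F] in
lemma RS2pol_degree (m : ℕ) (g : Fin m → F) : (RS2pol m g).degree < m :=
  Polynomial.degree_sum_fin_lt g

omit [Fintype F] [Algebra (ZMod 2) F] in
lemma RS2pol_coeff (m : ℕ) (g : Fin m → F) (i : Fin m) : (RS2pol m g).coeff i = g i := by
  unfold RS2pol
  rw [Polynomial.finsetSum_coeff, Finset.sum_eq_single i]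
  · simp
  · intro j _ hj
    rw [Polynomial.coeff_C_mul_X_pow, if_neg]
    intro h
    exact hj (Fin.ext h.symm)
  · simp

omit [Algebra (ZMod 2) F] in
open Classical in
lemma RS2_roots_le (p : Polynomial F) (hp : p ≠ 0) :
    (Finset.univ.filter fun x : F => p.eval x = 0).card ≤ p.natDegree := by
  have h1 : (Finset.univ.filter fun x : F => p.eval x = 0) = p.roots.toFinset := by
    ext x
    simp [hp]
  rw [h1]
  exact (Multiset.toFinset_card_le _).trans (Polynomial.card_roots' p)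

open Classical in
lemma RS2_odd (m : ℕ) (g : Fin m → F) :
    (Finset.univ.filter fun x : F => RS2ev m x g + (1 : ZMod 2) • x ^ m = 0).card ≤ m := by
  have hmon : (Polynomial.X ^ m + RS2pol m g).Monic :=
    Polynomial.monic_X_pow_add (RS2pol_degree m g)
  have hdeg : (Polynomial.X ^ m + RS2pol m g).natDegree = m := by
    rw [Polynomial.natDegree_add_eq_left_of_degree_lt]
    · simp
    · simpa using RS2pol_degree m g
  have := RS2_roots_le _ hmon.ne_zero
  rw [hdeg] at this
  convert this using 3 with x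
  simp [RS2pol_eval, add_comm]

open Classical in
lemma RS2_even (m : ℕ) (g : Fin m → F) (hg : g ≠ 0) :
    (Finset.univ.filter fun x : F => RS2ev m x g + (0 : ZMod 2) • x ^ m = 0).card + 1 ≤ m := by
  have hne : RS2pol m g ≠ 0 := by
    intro h
    apply hg
    funext i
    rw [← RS2pol_coeff m g i, h]
    simp
  have hdeg : (RS2pol m g).natDegree < m :=
    (Polynomial.natDegree_lt_iff_degree_lt hne).2 (RS2pol_degree m g)
  have := RS2_roots_le _ hne
  have h2 : (Finset.univ.filter fun x : F => RS2ev m x g + (0 : ZMod 2) • x ^ m = 0) =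
      Finset.univ.filter fun x : F => (RS2pol m g).eval x = 0 := by
    ext x
    simp [RS2pol_eval]
  rw [h2]
  omega

/-- the low coefficients of the monic polynomial with root set `S` -/
noncomputable def RS2co (m : ℕ) (S : Finset F) : Fin m → F :=
  fun i => (∏ s ∈ S, (Polynomial.X - Polynomial.C s)).coeff i

open Classical in
lemma RS2co_roots (m : ℕ) (S : Finset F) (hS : S.card = m) :
    (Finset.univ.filter fun x : F => RS2ev m x (RS2co m S) + (1 : ZMod 2) • x ^ m = 0) = S := by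
  have hmon : (∏ s ∈ S, (Polynomial.X - Polynomial.C s : Polynomial F)).Monic :=
    Polynomial.monic_prod_of_monic _ _ fun s _ => Polynomial.monic_X_sub_C s
  have hdeg : (∏ s ∈ S, (Polynomial.X - Polynomial.C s : Polynomial F)).natDegree = m := by
    rw [Polynomial.natDegree_prod_of_monic _ _ fun s _ => Polynomial.monic_X_sub_C s]
    simp [hS]
  have hev : ∀ x : F, RS2ev m x (RS2co m S) + (1 : ZMod 2) • x ^ m = ∏ s ∈ S, (x - s) := by
    intro x
    have h1 : (∏ s ∈ S, (Polynomial.X - Polynomial.C s : Polynomial F)).eval x =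
        ∏ s ∈ S, (x - s) := by simp [Polynomial.eval_prod]
    rw [← h1, Polynomial.eval_eq_sum_range, hdeg, Finset.sum_range_succ]
    have h2 : (∏ s ∈ S, (Polynomial.X - Polynomial.C s : Polynomial F)).coeff m = 1 := by
      rw [← hdeg]; exact hmon.coeff_natDegree
    rw [h2, one_mul, one_smul, Finset.sum_range]
    rfl
  ext x
  rw [Finset.mem_filter, hev]
  simp [Finset.prod_eq_zero_iff, sub_eq_zero]

end RS2aux

theorem rs_code (e m : ℕ) (he : 0 < e) (hm : 0 < m) (hme : m ≤ 2 ^ e) :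
    ∃ (W T : Type) (_ : AddCommGroup W) (_ : Module (ZMod 2) W) (_ : Fintype W) (_ : Fintype T)
      (γ : T → W × ZMod 2) (θ : ℝ) (F : Fin (Nat.choose (2 ^ e) m) → Module.Dual (ZMod 2) (W × ZMod 2)),
      Fintype.card W = 2 ^ (e * m) ∧ Fintype.card T ≤ 4 ^ e ∧ 0 ≤ θ ∧ (∀ t, γ t ≠ 0) ∧
      (∀ f : Module.Dual (ZMod 2) (W × ZMod 2), f (0, 1) ≠ 0 → θ ≤ eig γ f) ∧
      (∀ f : Module.Dual (ZMod 2) (W × ZMod 2), f ≠ 0 → f (0, 1) = 0 → θ + 1 ≤ eig γ f) ∧
      Function.Injective F ∧ ∀ i, F i (0, 1) ≠ 0 ∧ eig γ (F i) = θ := by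
  classical
  let K : Type := GaloisField 2 e
  let : Fintype K := Fintype.ofFinite _
  have hrank : Module.finrank (ZMod 2) K = e := GaloisField.finrank 2 he.ne'
  have hcard : Fintype.card K = 2 ^ e := by
    rw [Module.card_eq_pow_finrank (K := ZMod 2) (V := K), hrank, ZMod.card]
  have : Finite (Module.Dual (ZMod 2) K) := Module.finite_of_finite (ZMod 2)
  have : Finite (Module.Dual (ZMod 2) (Fin m → K)) := Module.finite_of_finite (ZMod 2)
  let : Fintype (Module.Dual (ZMod 2) K) := Fintype.ofFinite _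
  let iW : Fintype (Module.Dual (ZMod 2) (Fin m → K)) := Fintype.ofFinite _
  let iL : Fintype {l : Module.Dual (ZMod 2) K // l ≠ 0} := Fintype.ofFinite _
  have hPc : Fintype.card (Finset.powersetCard m (Finset.univ : Finset K)) =
      Nat.choose (2 ^ e) m := by
    rw [Fintype.card_coe, Finset.card_powersetCard, Finset.card_univ, hcard]
  let σ := (Fintype.equivFinOfCardEq hPc).symm
  have hσ : ∀ i, (σ i).1.card = m := fun i => (Finset.mem_powersetCard.1 (σ i).2).2
  have hq : (0 : ℝ) < Fintype.card K := by exact_mod_cast Fintype.card_pos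
  have hq1 : (1 : ℝ) ≤ Fintype.card K := by exact_mod_cast Fintype.card_pos
  have hmq : (m : ℝ) ≤ Fintype.card K := by rw [hcard]; exact_mod_cast hme
  refine ⟨Module.Dual (ZMod 2) (Fin m → K), K × {l : Module.Dual (ZMod 2) K // l ≠ 0},
    inferInstance, inferInstance, iW, inferInstance, RS2gam m,
    2 * (Fintype.card K : ℝ) * ((Fintype.card K : ℝ) - m),
    fun i => RS2fun m (RS2co m (σ i).1) 1, ?_, ?_, ?_, ?_, ?_, ?_, ?_, ?_⟩
  · rw [Module.card_eq_pow_finrank (K := ZMod 2), Subspace.dual_finrank_eq, ZMod.card,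
      Module.finrank_pi_fintype]
    simp [hrank, mul_comm]
  · rw [Fintype.card_prod, hcard]
    have h1 : Fintype.card {l : Module.Dual (ZMod 2) K // l ≠ 0} ≤ 2 ^ e := by
      rw [← hcard, ← RS2_card_dual (F := K)]
      exact Fintype.card_subtype_le _
    calc 2 ^ e * Fintype.card {l : Module.Dual (ZMod 2) K // l ≠ 0} ≤ 2 ^ e * 2 ^ e :=
          Nat.mul_le_mul_left _ h1
      _ = 4 ^ e := by rw [← mul_pow]; norm_num
  · exact mul_nonneg (by positivity) (by linarith)
  · rintro ⟨x, l⟩ h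
    apply l.2
    apply LinearMap.ext
    intro y
    have h1 : (l.1 ∘ₗ RS2ev m x) = 0 := congrArg Prod.fst h
    have h2 := congrArg (fun φ => φ (Pi.single (⟨0, hm⟩ : Fin m) y)) h1
    have h3 : RS2ev m x (Pi.single (⟨0, hm⟩ : Fin m) y) = y := by
      change ∑ i : Fin m, (Pi.single (⟨0, hm⟩ : Fin m) y : Fin m → K) i * x ^ (i : ℕ) = y
      rw [Finset.sum_eq_single ⟨0, hm⟩]
      · simp
      · intro j _ hj
        simp [Pi.single_eq_of_ne hj]
      · simp
    simpa [h3] using h2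
  · intro f hf
    obtain ⟨g, hg⟩ := RS2_exists m f
    have h01 : ∀ a : ZMod 2, a ≠ 0 → a = 1 := by decide
    rw [h01 _ hf] at hg
    rw [hg, RS2_eig]
    have : ((Finset.univ.filter fun x : K => RS2ev m x g + (1 : ZMod 2) • x ^ m = 0).card : ℝ)
        ≤ m := by exact_mod_cast RS2_odd m g
    apply mul_le_mul_of_nonneg_left _ (by positivity)
    convert sub_le_sub_left this (Fintype.card K : ℝ)
  · intro f hf hf0
    obtain ⟨g, hg⟩ := RS2_exists m f
    rw [hf0] at hg
    have hg0 : g ≠ 0 := by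
      rintro rfl
      apply hf
      rw [hg]
      apply LinearMap.ext
      intro p
      simp [RS2fun_apply]
    rw [hg, RS2_eig]
    have : ((Finset.univ.filter fun x : K => RS2ev m x g + (0 : ZMod 2) • x ^ m = 0).card : ℝ)
        + 1 ≤ m := by exact_mod_cast RS2_even m g hg0
    set N : ℝ := ((Finset.univ.filter
      fun x : K => RS2ev m x g + (0 : ZMod 2) • x ^ m = 0).card : ℝ) with hN
    have h5 : 2 * (Fintype.card K : ℝ) * ((Fintype.card K : ℝ) - m) + 1 ≤
        2 * (Fintype.card K : ℝ) * ((Fintype.card K : ℝ) - N) := by nlinarith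
    convert h5
  · intro i j hij
    have hg : RS2co m (σ i).1 = RS2co m (σ j).1 := by
      rw [← sub_eq_zero, ← Module.forall_dual_apply_eq_zero_iff (ZMod 2)]
      intro ξ
      have := congrArg (fun φ => φ (ξ, 0)) hij
      simp only [RS2fun_apply, zero_mul, add_zero] at this
      rw [map_sub, this, sub_self]
    have h1 := RS2co_roots m _ (hσ i)
    have h2 := RS2co_roots m _ (hσ j)
    rw [hg, h2] at h1
    exact σ.injective (Subtype.ext h1.symm)
  · intro i
    refine ⟨by simp [RS2fun_apply], ?_⟩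
    rw [RS2_eig]
    have h1 := RS2co_roots m _ (hσ i)
    have h2 : (Finset.univ.filter
        fun x : K => RS2ev m x (RS2co m (σ i).1) + (1 : ZMod 2) • x ^ m = 0).card = m := by
      convert hσ i
    convert congrArg (fun n : ℕ => 2 * (Fintype.card K : ℝ) * ((Fintype.card K : ℝ) - n)) h2

end Pool.Agent.MP_4f0ed6_gt.CdV

end

section

open Set Laplacian Filter Topology MeasureTheory Metric InnerProductSpace
open scoped ContDiff

namespace Pool.Agent.MP_4f0ed6_gt.CdV

/-- the bijection between the field with two elements and the booleans -/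
def RS3_eB : ZMod 2 ≃ Bool where
  toFun a := decide (a = 1)
  invFun b := if b then 1 else 0
  left_inv := by decide
  right_inv := by decide

theorem RS3_eB_add (a : ZMod 2) : RS3_eB (a + 1) = !(RS3_eB a) := by
  revert a; decide

theorem RS3_lap {X Y T T' : Type} [Fintype T] [Fintype T'] (E : X ≃ Y) (eT : T' ≃ T)
    (P : T → Equiv.Perm X) (u : Y → ℝ) (x : X) :
    Lap (fun t => E.permCongr (P (eT t))) u (E x) = Lap P (fun y => u (E y)) x := by
  unfold Lap
  rw [← Equiv.sum_comp eT]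
  refine Finset.sum_congr rfl fun t _ => ?_
  simp [Equiv.permCongr_def]

theorem RS3_chr_odd {G : Type} [AddCommGroup G] [Module (ZMod 2) G]
    (f : Module.Dual (ZMod 2) G) (z : G) (hz : f z ≠ 0) (x : G) :
    chr f (x + z) = -chr f x := by
  unfold chr
  rw [map_add]
  generalize f x = a at *
  generalize f z = b at *
  have h : ∀ a b : ZMod 2, b ≠ 0 → (a + b = 0 ↔ ¬ a = 0) := by decide
  by_cases ha : a = 0
  · rw [if_pos ha, if_neg (by rw [h a b hz]; exact not_not.mpr ha)]
  · rw [if_neg ha, if_pos ((h a b hz).mpr ha)]; simp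

theorem graph_exists (e m : ℕ) (he : 0 < e) (hm : 0 < m) (hme : m ≤ 2 ^ e) :
    ∃ nT ≤ 4 ^ e, ∃ (Pm : Fin nT → Equiv.Perm (DD (e * m) × Bool)) (θ : ℝ)
      (F : Fin (Nat.choose (2 ^ e) m) → DD (e * m) × Bool → ℝ), GraphOk Pm θ ∧
      LinearIndependent ℝ F ∧ (∀ i v, F i (flp v) = -F i v) ∧
      ∀ i v, Lap Pm (F i) v = θ * F i v := by
  classical
  obtain ⟨W, T, _, _, _, _, γ, θ, F, hW, hT, hθ, hγ, hodd, heven, hF, hFi⟩ :=
    rs_code e m he hm hme
  have hc : Fintype.card W = Fintype.card (DD (e * m)) := by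
    rw [hW]; simp [DD]
  let eW : W ≃ DD (e * m) := Fintype.equivOfCardEq hc
  let eT : Fin (Fintype.card T) ≃ T := (Fintype.equivFin T).symm
  let E : W × ZMod 2 ≃ DD (e * m) × Bool := eW.prodCongr RS3_eB
  have hE : ∀ x : W × ZMod 2, E (x + (0, 1)) = flp (E x) := by
    rintro ⟨w, a⟩
    simp [E, flp, RS3_eB_add]
  have hlap : ∀ (u : DD (e * m) × Bool → ℝ) (x : W × ZMod 2),
      Lap (fun t => E.permCongr (Equiv.addRight (γ (eT t)))) u (E x) =
        Lap (fun t => Equiv.addRight (γ t)) (fun y => u (E y)) x :=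
    fun u x => RS3_lap E eT (fun t => Equiv.addRight (γ t)) u x
  refine ⟨Fintype.card T, hT, fun t => E.permCongr (Equiv.addRight (γ (eT t))), θ,
    fun i v => chr (F i) (E.symm v), ⟨hθ, ?_, ?_, ?_, ?_⟩, ?_, ?_, ?_⟩
  · intro t v h
    obtain ⟨x, rfl⟩ := E.surjective v
    simp only [Equiv.permCongr_apply, Equiv.symm_apply_apply, Equiv.coe_addRight,
      EmbeddingLike.apply_eq_iff_eq, add_eq_left] at h
    exact hγ _ h
  · intro t v
    obtain ⟨x, rfl⟩ := E.surjective v
    rw [← hE]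
    simp only [Equiv.permCongr_apply, Equiv.symm_apply_apply, Equiv.coe_addRight]
    rw [← hE, add_right_comm]
  · intro u hu
    have := lap_odd γ (0, 1) hodd (fun y => u (E y)) (fun x => by
      show u (E (x + (0, 1))) = -u (E x)
      rw [hE, hu])
    rw [← Equiv.sum_comp E (fun v => u v ^ 2), ← Equiv.sum_comp E
      (fun v => u v * Lap (fun t => E.permCongr (Equiv.addRight (γ (eT t)))) u v)]
    simpa only [hlap] using this
  · intro u hu
    have := lap_even γ (0, 1) heven (fun y => u (E y)) (fun x => by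
      show u (E (x + (0, 1))) = u (E x)
      rw [hE, hu])
    rw [← Equiv.sum_comp E (fun v => u v ^ 2), ← Equiv.sum_comp E
      (fun v => u v * Lap (fun t => E.permCongr (Equiv.addRight (γ (eT t)))) u v),
      ← Equiv.sum_comp E u, ← Fintype.card_congr E]
    simpa only [hlap] using this
  · have h1 : LinearIndependent ℝ fun i => chr (F i) := chr_indep.comp F hF
    rw [Fintype.linearIndependent_iff] at h1 ⊢
    intro g hg
    refine h1 g ?_
    funext x
    have := congrFun hg (E x)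
    simpa using this
  · intro i v
    obtain ⟨x, rfl⟩ := E.surjective v
    rw [← hE]
    simp only [Equiv.symm_apply_apply]
    exact RS3_chr_odd _ _ (hFi i).1 x
  · intro i v
    obtain ⟨x, rfl⟩ := E.surjective v
    rw [hlap]
    simp only [Equiv.symm_apply_apply]
    rw [← (hFi i).2]
    exact lap_chr γ (F i) x

end Pool.Agent.MP_4f0ed6_gt.CdV

end

section

open Real

namespace Pool.Agent.MP_4f0ed6_gt.CdV

theorem Asym2_e {m γ : ℕ} (hm : 0 < m) (h : 2 ^ (6 * m ^ 2) ≤ γ) :
    ∃ e : ℕ, m ≤ e ∧ 2 ^ (e * m) * 4 * (e * m + 4 ^ e) ≤ γ ∧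
      γ ≤ 20 * 2 ^ m * (2 ^ e) ^ m * (2 ^ e) ^ 2 := by
  classical
  let P : ℕ → Prop := fun e => 2 ^ (e * m) * 4 * (e * m + 4 ^ e) ≤ γ
  have h4 : ∀ e : ℕ, 4 ^ e = 2 ^ e * 2 ^ e := fun e => by rw [← mul_pow]; norm_num
  have hP : P m := by
    refine le_trans ?_ h
    have h1 : m * m ≤ 4 ^ m := by
      rw [h4]
      exact Nat.mul_le_mul Nat.lt_two_pow_self.le Nat.lt_two_pow_self.le
    calc 2 ^ (m * m) * 4 * (m * m + 4 ^ m) ≤ 2 ^ (m * m) * 4 * (4 ^ m + 4 ^ m) := by gcongr
      _ = 2 ^ (m * m + 2 * m + 3) := by rw [h4]; ring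
      _ ≤ _ := Nat.pow_le_pow_right (by norm_num) (by nlinarith)
  have hle : ∀ e, P e → e < γ := fun e he => by
    have h1 : e < 4 ^ e := Nat.lt_pow_self (by norm_num)
    have h2 : 1 ≤ 2 ^ (e * m) := Nat.one_le_two_pow
    have h3 : 1 * 4 * (0 + 4 ^ e) ≤ 2 ^ (e * m) * 4 * (e * m + 4 ^ e) := by
      gcongr
      exact Nat.zero_le _
    have : 2 ^ (e * m) * 4 * (e * m + 4 ^ e) ≤ γ := he
    omega
  obtain ⟨e, he⟩ : ∃ e, e = Nat.findGreatest P γ := ⟨_, rfl⟩
  have h1 : m ≤ e := he ▸ Nat.le_findGreatest (hle m hP).le hP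
  have h2 : P e := he ▸ Nat.findGreatest_spec (hle m hP).le hP
  have h3 : ¬P (e + 1) :=
    Nat.findGreatest_is_greatest (he ▸ Nat.lt_succ_self e) (hle e h2)
  refine ⟨e, h1, h2, (not_le.1 h3).le.trans ?_⟩
  have h5 : e + 1 ≤ 2 ^ e := Nat.lt_two_pow_self
  have h6 : (e + 1) * m ≤ 2 ^ e * 2 ^ e := Nat.mul_le_mul h5 (by omega)
  calc 2 ^ ((e + 1) * m) * 4 * ((e + 1) * m + 4 ^ (e + 1))
      ≤ 2 ^ ((e + 1) * m) * 4 * (2 ^ e * 2 ^ e + 4 ^ (e + 1)) := by gcongr
    _ = _ := by rw [pow_succ 4, h4]; ring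

theorem Asym2_choose {q m : ℕ} (h : 2 * m ≤ q) :
    (q : ℝ) ^ m ≤ (2 * m) ^ m * Nat.choose q m := by
  have h1 := Nat.pow_le_choose (α := ℝ) m q
  have h2 : (0 : ℝ) < m.factorial := by exact_mod_cast m.factorial_pos
  rw [div_le_iff₀ h2] at h1
  have h3 : (m.factorial : ℝ) ≤ (m : ℝ) ^ m := by exact_mod_cast m.factorial_le_pow
  have h4 : (q : ℝ) ≤ 2 * ((q + 1 - m : ℕ) : ℝ) := by
    exact_mod_cast (by omega : q ≤ 2 * (q + 1 - m))
  calc (q : ℝ) ^ m ≤ (2 * ((q + 1 - m : ℕ) : ℝ)) ^ m := by gcongr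
    _ = 2 ^ m * ((q + 1 - m : ℕ) : ℝ) ^ m := mul_pow _ _ _
    _ ≤ 2 ^ m * (Nat.choose q m * (m : ℝ) ^ m) := by
      gcongr
      exact h1.trans (by gcongr)
    _ = _ := by rw [mul_pow]; ring

theorem asym2 : ∃ γ₀ : ℕ, ∀ γ ≥ γ₀, ∃ e m : ℕ, 0 < e ∧ 0 < m ∧ m ≤ 2 ^ e ∧
    2 ^ (e * m) * 4 * (e * m + 4 ^ e) ≤ γ ∧
    (γ : ℝ) * exp (-5 * √(log γ * log (log γ))) ≤ Nat.choose (2 ^ e) m := by
  refine ⟨⌈exp (exp 20)⌉₊, fun γ hγ => ?_⟩
  have hγ' : exp (exp 20) ≤ (γ : ℝ) := Nat.ceil_le.1 hγ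
  have hγ0 : (0 : ℝ) < γ := (exp_pos _).trans_le hγ'
  obtain ⟨L, hL⟩ : ∃ L, L = log γ := ⟨_, rfl⟩
  have hL1 : exp 20 ≤ L := hL ▸ (le_log_iff_exp_le hγ0).2 hγ'
  have hL0 : 0 < L := (exp_pos _).trans_le hL1
  obtain ⟨l, hl⟩ : ∃ l, l = log L := ⟨_, rfl⟩
  have hl1 : 20 ≤ l := hl ▸ (le_log_iff_exp_le hL0).2 hL1
  have hlL : l ≤ L := hl ▸ (log_le_sub_one_of_pos hL0).trans (by linarith)
  rw [← hL, ← hl]
  obtain ⟨s, hs⟩ : ∃ s, s = √(L * l) := ⟨_, rfl⟩
  rw [← hs]
  have hl0 : 0 < l := by linarith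
  have s2 : s ^ 2 = L * l := hs ▸ sq_sqrt (by positivity)
  have s0 : 0 ≤ s := hs ▸ sqrt_nonneg _
  have ls : l ≤ s := by
    refine (pow_le_pow_iff_left₀ hl0.le s0 two_ne_zero).1 ?_
    nlinarith
  obtain ⟨m, hm⟩ : ∃ m, m = ⌈s / l⌉₊ := ⟨_, rfl⟩
  have m1 : s ≤ m * l := by
    rw [← div_le_iff₀ hl0, hm]
    exact Nat.le_ceil _
  have m2 : m * l ≤ 2 * s := by
    have : (m : ℝ) ≤ s / l + 1 := hm ▸ (Nat.ceil_lt_add_one (by positivity)).le
    have h2 : (s / l + 1) * l = s + l := by field_simp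
    nlinarith
  have m0 : 0 < m := by
    rcases Nat.eq_zero_or_pos m with h | h
    · simp only [h, Nat.cast_zero, zero_mul] at m1
      linarith
    · exact h
  have m0' : (0 : ℝ) < m := by exact_mod_cast m0
  have m3 : L ≤ m * s := by
    refine le_of_mul_le_mul_right ?_ hl0
    nlinarith
  have m4 : (m : ℝ) ^ 2 * l ≤ 4 * L := by
    refine le_of_mul_le_mul_right ?_ hl0
    have : (m * l) ^ 2 ≤ (2 * s) ^ 2 := by gcongr
    nlinarith
  have m5 : 4 * (m : ℝ) ≤ L := by
    refine (pow_le_pow_iff_left₀ (by positivity) hL0.le two_ne_zero).1 ?_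
    nlinarith
  have l2 : log 2 ≤ 7 / 10 := log_two_lt_d9.le.trans (by norm_num)
  obtain ⟨e, e1, e2, e3⟩ := Asym2_e (γ := γ) m0 (by
    have : ((2 ^ (6 * m ^ 2) : ℕ) : ℝ) ≤ γ := by
      rw [← log_le_log_iff (by positivity) hγ0, ← hL]
      push_cast
      rw [log_pow]
      push_cast
      nlinarith
    exact_mod_cast this)
  have q1 : 2 * m ≤ 2 ^ e := by
    obtain ⟨k, rfl⟩ := Nat.exists_eq_succ_of_ne_zero m0.ne'
    calc 2 * (k + 1) ≤ 2 * 2 ^ k := Nat.mul_le_mul_left _ Nat.lt_two_pow_self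
      _ = 2 ^ (k + 1) := by ring
      _ ≤ _ := Nat.pow_le_pow_right (by norm_num) e1
  refine ⟨e, m, by omega, m0, by omega, e2, ?_⟩
  have c1 := Asym2_choose q1
  obtain ⟨q, hq⟩ : ∃ q : ℕ, q = 2 ^ e := ⟨_, rfl⟩
  have q2 : q ^ m ≤ γ := by
    refine le_trans ?_ e2
    rw [hq, ← pow_mul, mul_assoc]
    exact Nat.le_mul_of_pos_right _ (by positivity)
  rw [← hq] at c1 e3 ⊢
  have q0 : (0 : ℝ) < q := by rw [hq]; positivity
  have q3 : (q : ℝ) ≤ exp s := by
    rw [← log_le_iff_le_exp q0]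
    refine le_of_mul_le_mul_left ?_ m0'
    rw [← log_pow]
    refine le_trans ?_ m3
    rw [hL]
    exact log_le_log (by positivity) (by exact_mod_cast q2)
  have q4 : (4 * m : ℝ) ^ m ≤ exp (2 * s) := by
    rw [← log_le_iff_le_exp (by positivity), log_pow]
    refine le_trans ?_ m2
    rw [hl]
    gcongr
  have q5 : (20 : ℝ) ≤ exp s := by linarith [add_one_le_exp s]
  have e4 : (γ : ℝ) ≤ 20 * 2 ^ m * (q : ℝ) ^ m * (q : ℝ) ^ 2 := by exact_mod_cast e3
  have e5 : (γ : ℝ) ≤ exp (5 * s) * Nat.choose q m := by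
    calc (γ : ℝ) ≤ 20 * 2 ^ m * ((2 * m) ^ m * Nat.choose q m) * (q : ℝ) ^ 2 :=
          e4.trans (by gcongr)
      _ = 20 * (4 * m) ^ m * (q : ℝ) ^ 2 * Nat.choose q m := by
          rw [show (4 * m : ℝ) = 2 * (2 * m) by ring, mul_pow 2 (2 * m : ℝ)]
          ring
      _ ≤ exp s * exp (2 * s) * exp s ^ 2 * Nat.choose q m := by gcongr
      _ = _ := by
          rw [← exp_nat_mul, ← exp_add, ← exp_add]
          congr 2
          push_cast
          ring
  rw [neg_mul, exp_neg, ← div_eq_mul_inv, div_le_iff₀' (exp_pos _)]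
  exact e5

end Pool.Agent.MP_4f0ed6_gt.CdV

end
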